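import Pool.Agent.J4H67.SL.Inter2

/-!
Means over windows.
-/

set_option autoImplicit false

namespace Pool.Agent.J4H67.SL

open Filter Topology Finset

/-- the `m` of the parity of `n` in `[n, n + n ^ ρ]` -/
noncomputable def window (ρ : ℝ) (n : ℕ) : Finset ℕ :=
  (Finset.Icc n (n + ⌊(n : ℝ) ^ ρ⌋₊)).filter fun m => m % 2 = n % 2

theorem mem_window {ρ : ℝ} {n m : ℕ} (h : m ∈ window ρ n) :
    n ≤ m ∧ (m : ℝ) ≤ n + (n : ℝ) ^ ρ ∧ m % 2 = n % 2 := by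
  rw [window, mem_filter, mem_Icc] at h
  obtain ⟨⟨h1, h2⟩, h3⟩ := h
  refine ⟨h1, ?_, h3⟩
  have h4 : (m : ℝ) ≤ (n : ℝ) + ((⌊(n : ℝ) ^ ρ⌋₊ : ℕ) : ℝ) := by exact_mod_cast h2
  have h5 := Nat.floor_le (show 0 ≤ (n : ℝ) ^ ρ by positivity)
  linarith

theorem inter_mean {u : ℕ → ℝ} (hu : ∀ n, 0 < u n)
    (hL : ∀ κ : ℝ, κ < 1 / 3 → Smooth κ (fun n => Real.log (u n))) {ε : ℝ} (hε : 0 < ε)
    (hε' : ε ≤ 1 / 3) {A : ℝ} (hA : 0 < A) (g : ℝ) {w : ℕ → ℕ → ℝ} (hw : ∀ n m, 0 ≤ w n m)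
    (hw1 : ∀ n, ∑ m ∈ window (1 / 3 - ε) n, w n m = 1) {D : ℝ} (hD : 0 < D)
    (h : (fun n : ℕ => ∑ m ∈ window (1 / 3 - ε) n, w n m * (u m / (A * (m : ℝ) ^ g)) - 1) =O[atTop]
      fun n : ℕ => (n : ℝ) ^ (-D)) :
    (fun n : ℕ => u n / (A * (n : ℝ) ^ g) - 1) =O[atTop] fun n : ℕ => (n : ℝ) ^ (-D) := by
  obtain ⟨C, hC⟩ := h.bound
  have hwpos : ∀ n, ∃ m ∈ window (1 / 3 - ε) n, 0 < w n m := by
    intro n
    obtain ⟨m, hm, hm'⟩ := Finset.exists_ne_zero_of_sum_ne_zero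
      (show ∑ m ∈ window (1 / 3 - ε) n, w n m ≠ 0 by rw [hw1]; exact one_ne_zero)
    exact ⟨m, hm, lt_of_le_of_ne (hw n m) hm'.symm⟩
  have hcomp : ∀ n : ℕ, 1 ≤ n → ∀ m ∈ window (1 / 3 - ε) n,
      |C| * (n : ℝ) ^ (-D) ≤ |C| * 2 ^ D * (m : ℝ) ^ (-D) := by
    intro n hn m hm
    obtain ⟨h1, h2, -⟩ := mem_window hm
    have hn1 : (1 : ℝ) ≤ n := by exact_mod_cast hn
    have hn0 : (0 : ℝ) < n := by linarith
    have hm0 : (0 : ℝ) < m := by exact_mod_cast (by omega : 0 < m)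
    have h3 : (n : ℝ) ^ (1 / 3 - ε) ≤ n := by
      conv_rhs => rw [← Real.rpow_one (n : ℝ)]
      exact Real.rpow_le_rpow_of_exponent_le hn1 (by linarith)
    have h4 : (m : ℝ) ≤ 2 * n := by linarith
    have h5 : (2 * (n : ℝ)) ^ (-D) ≤ (m : ℝ) ^ (-D) :=
      Real.rpow_le_rpow_of_nonpos hm0 h4 (by linarith)
    have h6 : (n : ℝ) ^ (-D) = 2 ^ D * (2 * (n : ℝ)) ^ (-D) := by
      rw [Real.mul_rpow (by norm_num) hn0.le, ← mul_assoc, ← Real.rpow_add (by norm_num)]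
      simp
    rw [h6, mul_assoc]
    exact mul_le_mul_of_nonneg_left (mul_le_mul_of_nonneg_left h5 (by positivity)) (abs_nonneg C)
  have hpos : ∀ m : ℕ, 1 ≤ m → 0 < A * (m : ℝ) ^ g := fun m hm => by
    have : (0 : ℝ) < m := by exact_mod_cast hm
    positivity
  have hup : Meets {m : ℕ | u m ≤ (1 + |C| * 2 ^ D * (m : ℝ) ^ (-D)) * (A * (m : ℝ) ^ g)}
      (1 / 3 - ε) := by
    filter_upwards [hC, eventually_ge_atTop 1] with n hn hn1
    rw [Real.norm_eq_abs, Real.norm_of_nonneg (by positivity)] at hn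
    by_contra hcon
    push Not at hcon
    have hgt : ∀ m ∈ window (1 / 3 - ε) n, 1 + |C| * (n : ℝ) ^ (-D) < u m / (A * (m : ℝ) ^ g) := by
      intro m hm
      obtain ⟨h1, h2, h3⟩ := mem_window hm
      have hmS : m ∉ {m : ℕ | u m ≤ (1 + |C| * 2 ^ D * (m : ℝ) ^ (-D)) * (A * (m : ℝ) ^ g)} :=
        fun hmem => hcon m hmem h1 h2 h3
      rw [Set.mem_setOf_eq, not_le] at hmS
      rw [lt_div_iff₀ (hpos m (by omega))]
      refine lt_of_le_of_lt ?_ hmS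
      exact mul_le_mul_of_nonneg_right (by linarith [hcomp n hn1 m hm]) (hpos m (by omega)).le
    have hlt : ∑ m ∈ window (1 / 3 - ε) n, w n m * (1 + |C| * (n : ℝ) ^ (-D)) <
        ∑ m ∈ window (1 / 3 - ε) n, w n m * (u m / (A * (m : ℝ) ^ g)) := by
      obtain ⟨m, hm, hm'⟩ := hwpos n
      exact Finset.sum_lt_sum (fun i hi => mul_le_mul_of_nonneg_left (hgt i hi).le (hw n i))
        ⟨m, hm, mul_lt_mul_of_pos_left (hgt m hm) hm'⟩
    rw [← Finset.sum_mul, hw1, one_mul] at hlt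
    have h1 := (le_abs_self _).trans hn
    have h2 : C * (n : ℝ) ^ (-D) ≤ |C| * (n : ℝ) ^ (-D) :=
      mul_le_mul_of_nonneg_right (le_abs_self C) (by positivity)
    linarith
  have hlo : Meets {m : ℕ | (1 - |C| * 2 ^ D * (m : ℝ) ^ (-D)) * (A * (m : ℝ) ^ g) ≤ u m}
      (1 / 3 - ε) := by
    filter_upwards [hC, eventually_ge_atTop 1] with n hn hn1
    rw [Real.norm_eq_abs, Real.norm_of_nonneg (by positivity)] at hn
    by_contra hcon
    push Not at hcon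
    have hgt : ∀ m ∈ window (1 / 3 - ε) n, u m / (A * (m : ℝ) ^ g) < 1 - |C| * (n : ℝ) ^ (-D) := by
      intro m hm
      obtain ⟨h1, h2, h3⟩ := mem_window hm
      have hmS : m ∉ {m : ℕ | (1 - |C| * 2 ^ D * (m : ℝ) ^ (-D)) * (A * (m : ℝ) ^ g) ≤ u m} :=
        fun hmem => hcon m hmem h1 h2 h3
      rw [Set.mem_setOf_eq, not_le] at hmS
      rw [div_lt_iff₀ (hpos m (by omega))]
      refine lt_of_lt_of_le hmS ?_
      exact mul_le_mul_of_nonneg_right (by linarith [hcomp n hn1 m hm]) (hpos m (by omega)).le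
    have hlt : ∑ m ∈ window (1 / 3 - ε) n, w n m * (u m / (A * (m : ℝ) ^ g)) <
        ∑ m ∈ window (1 / 3 - ε) n, w n m * (1 - |C| * (n : ℝ) ^ (-D)) := by
      obtain ⟨m, hm, hm'⟩ := hwpos n
      exact Finset.sum_lt_sum (fun i hi => mul_le_mul_of_nonneg_left (hgt i hi).le (hw n i))
        ⟨m, hm, mul_lt_mul_of_pos_left (hgt m hm) hm'⟩
    rw [← Finset.sum_mul, hw1, one_mul] at hlt
    have h1 := (neg_abs_le _).trans_lt' (show -(C * (n : ℝ) ^ (-D)) - 1 <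
      -|∑ m ∈ window (1 / 3 - ε) n, w n m * (u m / (A * (m : ℝ) ^ g)) - 1| by linarith)
    have h3 := neg_abs_le (∑ m ∈ window (1 / 3 - ε) n, w n m * (u m / (A * (m : ℝ) ^ g)) - 1)
    have h2 : C * (n : ℝ) ^ (-D) ≤ |C| * (n : ℝ) ^ (-D) :=
      mul_le_mul_of_nonneg_right (le_abs_self C) (by positivity)
    linarith
  exact (inter_pow hu hL hε hε' hup hlo hA g).2 D hD
    ⟨|C| * 2 ^ D, eventually_inf_principal.2 (Eventually.of_forall fun m hm => hm)⟩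
    ⟨|C| * 2 ^ D, eventually_inf_principal.2 (Eventually.of_forall fun m hm => hm)⟩

end Pool.Agent.J4H67.SL
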