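import Pool.Agent.J4H67.SL.Newton

/-!
The sparse set principle for sequences with small differences of all orders.
-/

set_option autoImplicit false

namespace Pool.Agent.J4H67.SL

open Finset Filter Topology

/-- all differences with step `2` of `φ` are small: the one of order `r` is `O(n ^ (- κ r))`. -/
def Smooth (κ : ℝ) (φ : ℕ → ℝ) : Prop :=
  ∀ r : ℕ, 1 ≤ r → ∃ C : ℝ, ∀ n : ℕ, 1 ≤ n → |dd r φ n| ≤ C * (n : ℝ) ^ (-(κ * r))

/-- `S` meets every window `[n, n + n ^ ρ]`, `n` large, in a number of the parity of `n`. -/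
def Meets (S : Set ℕ) (ρ : ℝ) : Prop :=
  ∀ᶠ n : ℕ in atTop, ∃ s ∈ S, n ≤ s ∧ (s : ℝ) ≤ n + (n : ℝ) ^ ρ ∧ s % 2 = n % 2

theorem core {κ ρ : ℝ} (hρ0 : 0 ≤ ρ) (hρ1 : ρ < 1) (hκ : 0 ≤ κ) {H : ℕ → ℝ} (hH : Smooth κ H) {S : Set ℕ}
    (hS : Meets S ρ) (r : ℕ) (hr : 1 ≤ r) :
    ∃ C : ℝ, 0 ≤ C ∧ ∀ᶠ n : ℕ in atTop, ∀ δ : ℝ, (∀ s ∈ S, n ≤ s → |H s| ≤ δ) →
      |H n| ≤ C * (δ + (n : ℝ) ^ (-((κ - ρ) * r))) := by
  obtain ⟨C₀, hC₀⟩ := hH r hr
  set C₁ : ℝ := max C₀ 0 with hC₁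
  have hC₁0 : 0 ≤ C₁ := le_max_right _ _
  have hC₁' : ∀ n : ℕ, 1 ≤ n → |dd r H n| ≤ C₁ * (n : ℝ) ^ (-(κ * r)) := fun n hn =>
    (hC₀ n hn).trans (mul_le_mul_of_nonneg_right (le_max_left _ _) (by positivity))
  set R : ℝ := r * (2 * ((r : ℝ) + 1)) ^ r with hR
  have hR0 : 0 ≤ R := by positivity
  refine ⟨R * (1 + (3 * ((r : ℝ) + 1)) ^ r * C₁), by positivity, ?_⟩
  obtain ⟨n₀, hn₀⟩ := eventually_atTop.1 hS
  -- the windows are short
  have hshort : ∀ᶠ n : ℕ in atTop, 2 * (3 * (n : ℝ) ^ ρ) * (r + 1) ≤ n := by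
    have h1 : Tendsto (fun n : ℕ => (n : ℝ) ^ (ρ - 1)) atTop (𝓝 0) := by
      have := (tendsto_rpow_neg_atTop (show (0 : ℝ) < 1 - ρ by linarith)).comp
        (tendsto_natCast_atTop_atTop (R := ℝ))
      refine this.congr fun n => ?_
      simp [neg_sub]
    have h2 : ∀ᶠ n : ℕ in atTop, (n : ℝ) ^ (ρ - 1) ≤ 1 / (6 * (r + 1)) :=
      h1.eventually_le_const (by positivity)
    filter_upwards [h2, eventually_ge_atTop 1] with n hn hn1
    have hnp : (0 : ℝ) < n := by exact_mod_cast hn1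
    have e : (n : ℝ) ^ ρ = (n : ℝ) ^ (ρ - 1) * n := by
      rw [← Real.rpow_add_one hnp.ne']
      congr 1
      ring
    rw [e]
    have h3 : (n : ℝ) ^ (ρ - 1) * (6 * (r + 1)) ≤ 1 := by
      rwa [le_div_iff₀ (by positivity)] at hn
    nlinarith
  filter_upwards [hshort, eventually_ge_atTop n₀, eventually_ge_atTop 1] with n hsh hnn₀ hn1 δ hδ
  have hnp : (0 : ℝ) < n := by exact_mod_cast hn1
  have hn1' : (1 : ℝ) ≤ n := by exact_mod_cast hn1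
  set w : ℝ := (n : ℝ) ^ ρ with hw
  have hw1 : 1 ≤ w := Real.one_le_rpow hn1' hρ0
  set g : ℕ := ⌈2 * w⌉₊ with hgdef
  have hg1 : 2 * w ≤ g := Nat.le_ceil _
  have hg2 : (g : ℝ) ≤ 3 * w := by
    have := (Nat.ceil_lt_add_one (show 0 ≤ 2 * w by positivity)).le
    linarith
  have hgpos : (0 : ℝ) < g := by linarith
  -- the nodes
  have hnode : ∀ i : ℕ, i < r → ∃ t : ℕ, ((i : ℝ) + 1) * g ≤ t ∧ (t : ℝ) ≤ ((i : ℝ) + 1) * g + g / 2 ∧
      n + 2 * t ∈ S := by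
    intro i hi
    have hi' : ((i : ℝ) + 1) ≤ r := by exact_mod_cast hi
    set b : ℕ := n + 2 * ((i + 1) * g) with hb
    have hbn : n ≤ b := by omega
    obtain ⟨s, hsS, hs1, hs2, hs3⟩ := hn₀ b (hnn₀.trans hbn)
    have hb2 : (b : ℝ) ≤ 2 * n := by
      rw [hb]
      push_cast
      have : ((i : ℝ) + 1) * g ≤ (r + 1) * (3 * w) := by
        refine mul_le_mul (by linarith) hg2 hgpos.le (by positivity)
      linarith
    have hbw : (b : ℝ) ^ ρ ≤ 2 * w := by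
      have hb0 : (0 : ℝ) ≤ b := Nat.cast_nonneg b
      calc (b : ℝ) ^ ρ ≤ (2 * n) ^ ρ := Real.rpow_le_rpow hb0 hb2 hρ0
        _ = 2 ^ ρ * w := by rw [Real.mul_rpow (by norm_num) hnp.le]
        _ ≤ 2 * w := by
          refine mul_le_mul_of_nonneg_right ?_ (by positivity)
          calc (2 : ℝ) ^ ρ ≤ 2 ^ (1 : ℝ) := Real.rpow_le_rpow_of_exponent_le (by norm_num) hρ1.le
            _ = 2 := Real.rpow_one 2
    have hpar : ∃ t, s = n + 2 * t := by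
      refine ⟨(s - n) / 2, ?_⟩
      have h1 : b % 2 = n % 2 := by omega
      omega
    obtain ⟨t, ht⟩ := hpar
    refine ⟨t, ?_, ?_, ht ▸ hsS⟩
    · have h1 : (i + 1) * g ≤ t := by omega
      exact_mod_cast h1
    · have h1 : (s : ℝ) ≤ b + g := by linarith
      rw [ht, hb] at h1
      push_cast at h1
      linarith
  choose! t ht using hnode
  set J : ℕ := (r + 1) * g with hJ
  set η : ℝ := C₁ * (n : ℝ) ^ (-(κ * r)) with hη
  have hη0 : 0 ≤ η := by positivity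
  have key := small r hr (fun j => H (n + 2 * j)) J η δ hη0 (fun m _ => by
    rw [dd_abs]
    refine (hC₁' (n + 2 * m) (by omega)).trans ?_
    refine mul_le_mul_of_nonneg_left ?_ hC₁0
    refine Real.rpow_le_rpow_of_nonpos hnp ?_ (by
      have : 0 ≤ κ * r := by positivity
      linarith)
    push_cast
    have : (0 : ℝ) ≤ m := Nat.cast_nonneg m
    linarith) g hgpos t (fun i hi => ⟨(ht i hi).1, (ht i hi).2.1⟩) (fun i hi => by
      have h1 := (ht i hi).2.1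
      have hi' : ((i : ℝ) + 1) ≤ r := by exact_mod_cast hi
      have h2 : (t i : ℝ) ≤ ((r : ℝ) + 1) * g := by nlinarith
      rw [hJ]
      exact_mod_cast h2) (fun i hi => hδ _ (ht i hi).2.2 (by omega))
  simp only [mul_zero, add_zero] at key
  refine key.trans ?_
  rw [mul_assoc R]
  refine mul_le_mul_of_nonneg_left ?_ hR0
  have hδ0 : 0 ≤ δ := (abs_nonneg _).trans (hδ _ (ht 0 (by omega)).2.2 (by omega))
  have hJη : (J : ℝ) ^ r * η ≤ (3 * ((r : ℝ) + 1)) ^ r * C₁ * (n : ℝ) ^ (-((κ - ρ) * r)) := by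
    have h1 : (J : ℝ) ≤ (3 * ((r : ℝ) + 1)) * w := by
      rw [hJ]
      push_cast
      nlinarith [Nat.cast_nonneg (α := ℝ) r]
    have h2 : (J : ℝ) ^ r ≤ ((3 * ((r : ℝ) + 1)) * w) ^ r := pow_le_pow_left₀ (Nat.cast_nonneg J) h1 r
    have h3 : w ^ r * (n : ℝ) ^ (-(κ * r)) = (n : ℝ) ^ (-((κ - ρ) * r)) := by
      rw [hw, ← Real.rpow_natCast, ← Real.rpow_mul hnp.le, ← Real.rpow_add hnp]
      congr 1
      ring
    calc (J : ℝ) ^ r * η ≤ ((3 * ((r : ℝ) + 1)) * w) ^ r * η := mul_le_mul_of_nonneg_right h2 hη0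
      _ = (3 * ((r : ℝ) + 1)) ^ r * C₁ * (w ^ r * (n : ℝ) ^ (-(κ * r))) := by
        rw [hη, mul_pow]; ring
      _ = _ := by rw [h3]
  have hnn : (0 : ℝ) ≤ (n : ℝ) ^ (-((κ - ρ) * r)) := by positivity
  have h4 : 0 ≤ (3 * ((r : ℝ) + 1)) ^ r * C₁ := by positivity
  nlinarith [mul_nonneg h4 hδ0]

/-- `o(1)` along the sparse set. -/
theorem core_zero {κ ρ : ℝ} (hρ0 : 0 ≤ ρ) (hρ1 : ρ < 1) (hκρ : ρ < κ) {H : ℕ → ℝ} (hH : Smooth κ H)
    {S : Set ℕ} (hS : Meets S ρ) (h0 : Tendsto H (atTop ⊓ 𝓟 S) (𝓝 0)) : Tendsto H atTop (𝓝 0) := by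
  obtain ⟨C, hC, h⟩ := core hρ0 hρ1 (hρ0.trans hκρ.le) hH hS 1 le_rfl
  rw [Metric.tendsto_nhds]
  intro ε hε
  have h1 : ∀ᶠ s in atTop ⊓ 𝓟 S, |H s| < ε / (4 * (C + 1)) := by
    have := (Metric.tendsto_nhds.1 h0) (ε / (4 * (C + 1))) (by positivity)
    simpa [Real.dist_eq] using this
  rw [eventually_inf_principal, eventually_atTop] at h1
  obtain ⟨N, hN⟩ := h1
  have h2 : Tendsto (fun n : ℕ => (n : ℝ) ^ (-((κ - ρ) * (1 : ℕ)))) atTop (𝓝 0) := by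
    have := (tendsto_rpow_neg_atTop (show (0 : ℝ) < (κ - ρ) * (1 : ℕ) by
      simp; linarith)).comp (tendsto_natCast_atTop_atTop (R := ℝ))
    exact this
  have h3 : ∀ᶠ n : ℕ in atTop, (n : ℝ) ^ (-((κ - ρ) * (1 : ℕ))) < ε / (4 * (C + 1)) :=
    h2.eventually_lt_const (by positivity)
  filter_upwards [h, h3, eventually_ge_atTop N] with n hn hn3 hnN
  have h4 := hn (ε / (4 * (C + 1))) (fun s hs hns => (hN s (hnN.trans hns) hs).le)
  rw [Real.dist_eq, sub_zero]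
  refine h4.trans_lt ?_
  have h5 : C * (ε / (4 * (C + 1)) + (n : ℝ) ^ (-((κ - ρ) * (1 : ℕ)))) ≤
      (C + 1) * (ε / (4 * (C + 1)) + ε / (4 * (C + 1))) := by
    refine mul_le_mul (by linarith) (by linarith) ?_ (by linarith)
    positivity
  have h6 : (C + 1) * (ε / (4 * (C + 1)) + ε / (4 * (C + 1))) = ε / 2 := by
    field_simp
    ring
  linarith

/-- `O(n ^ (- D))` along the sparse set, `D ≥ 0`. -/
theorem core_rate {κ ρ : ℝ} (hρ0 : 0 ≤ ρ) (hρ1 : ρ < 1) (hκρ : ρ < κ) {H : ℕ → ℝ} (hH : Smooth κ H)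
    {S : Set ℕ} (hS : Meets S ρ) {D : ℝ} (hD : 0 ≤ D)
    (h0 : H =O[atTop ⊓ 𝓟 S] fun n : ℕ => (n : ℝ) ^ (-D)) :
    H =O[atTop] fun n : ℕ => (n : ℝ) ^ (-D) := by
  obtain ⟨r, hr⟩ := exists_nat_ge (max 1 (D / (κ - ρ)))
  have hr1 : 1 ≤ r := by exact_mod_cast (le_max_left _ _).trans hr
  have hr2 : D ≤ (κ - ρ) * r := by
    have := (le_max_right _ _).trans hr
    rw [div_le_iff₀ (by linarith)] at this
    linarith
  obtain ⟨C, hC, h⟩ := core hρ0 hρ1 (hρ0.trans hκρ.le) hH hS r hr1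
  obtain ⟨B, hB⟩ := h0.bound
  rw [eventually_inf_principal, eventually_atTop] at hB
  obtain ⟨N, hN⟩ := hB
  refine Asymptotics.IsBigO.of_bound (C * (|B| + 1)) ?_
  filter_upwards [h, eventually_ge_atTop N, eventually_ge_atTop 1] with n hn hnN hn1
  have hnp : (0 : ℝ) < n := by exact_mod_cast hn1
  have hn1' : (1 : ℝ) ≤ n := by exact_mod_cast hn1
  have h1 := hn (|B| * (n : ℝ) ^ (-D)) (fun s hs hns => by
    have := hN s (hnN.trans hns) hs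
    rw [Real.norm_eq_abs, Real.norm_eq_abs, abs_of_nonneg (show (0 : ℝ) ≤ (s : ℝ) ^ (-D) by positivity)]
      at this
    refine this.trans ?_
    have h2 : (s : ℝ) ^ (-D) ≤ (n : ℝ) ^ (-D) :=
      Real.rpow_le_rpow_of_nonpos hnp (by exact_mod_cast hns) (by linarith)
    calc B * (s : ℝ) ^ (-D) ≤ |B| * (s : ℝ) ^ (-D) :=
          mul_le_mul_of_nonneg_right (le_abs_self B) (by positivity)
      _ ≤ _ := mul_le_mul_of_nonneg_left h2 (abs_nonneg B))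
  have h3 : (n : ℝ) ^ (-((κ - ρ) * r)) ≤ (n : ℝ) ^ (-D) :=
    Real.rpow_le_rpow_of_exponent_le hn1' (by linarith)
  rw [Real.norm_eq_abs, Real.norm_eq_abs, abs_of_nonneg (show (0 : ℝ) ≤ (n : ℝ) ^ (-D) by positivity)]
  calc |H n| ≤ C * (|B| * (n : ℝ) ^ (-D) + (n : ℝ) ^ (-((κ - ρ) * r))) := h1
    _ ≤ C * (|B| * (n : ℝ) ^ (-D) + (n : ℝ) ^ (-D)) :=
      mul_le_mul_of_nonneg_left (by linarith) hC
    _ = _ := by ring

end Pool.Agent.J4H67.SL
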