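import Pool.Agent.J4H67.SL.Main
import Pool.Agent.J4H96.WP.Gain

/-!
Every difference gains a power.
-/

set_option autoImplicit false

namespace Pool.Agent.J4H67.SL

open Filter Topology Finset Polynomial
open Pool.Agent.J4H96.WP (dif newt)

theorem first (r : ℕ) (hr : 2 ≤ r) : ∃ B : ℝ, 0 ≤ B ∧ ∀ (f : ℕ → ℝ) (q : ℕ) (A η : ℝ), 1 ≤ q →
    (∀ m, |dif r f m| ≤ η) → (∀ m, |f m| ≤ A) →
    |f 1 - f 0| ≤ B * (A + ((q * r : ℕ) : ℝ) ^ r * η) / q := by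
  obtain ⟨B, hB, hcoef⟩ := Pool.Agent.J4H96.WP.coeff_bound r
  refine ⟨r * B, by positivity, fun f q A η hq hη hA => ?_⟩
  have hη0 : 0 ≤ η := (abs_nonneg _).trans (hη 0)
  have hA0 : 0 ≤ A := (abs_nonneg _).trans (hA 0)
  have hqR : (1 : ℝ) ≤ q := by exact_mod_cast hq
  have hN := Pool.Agent.J4H96.WP.newton r f 0 (q * r) η (fun i _ => by rw [zero_add]; exact hη i)
  obtain ⟨P, hP⟩ : ∃ P : ℝ[X], P = newt r f 0 := ⟨_, rfl⟩
  have hPd : P.natDegree < r := by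
    rw [hP]
    exact Pool.Agent.J4H96.WP.newt_degree r (by omega) f 0
  have hPe : ∀ k ≤ q * r, |f k - P.eval (k : ℝ)| ≤ (k.choose r : ℝ) * η := by
    intro k hk
    have := hN k hk
    rw [zero_add, ← Pool.Agent.J4H96.WP.newt_eval, ← hP] at this
    exact this
  have h0 : f 0 = P.eval 0 := by
    have := hPe 0 (by omega)
    rw [Nat.choose_eq_zero_of_lt (by omega)] at this
    simp only [Nat.cast_zero, zero_mul, abs_nonpos_iff, sub_eq_zero] at this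
    exact this
  have h1 : f 1 = P.eval 1 := by
    have := hPe 1 (by nlinarith)
    rw [Nat.choose_eq_zero_of_lt (by omega)] at this
    simp only [Nat.cast_zero, zero_mul, abs_nonpos_iff, sub_eq_zero, Nat.cast_one] at this
    exact this
  obtain ⟨Q, hQ⟩ : ∃ Q : ℝ[X], Q = P.comp (C (q : ℝ) * X) := ⟨_, rfl⟩
  have hQev : ∀ x : ℝ, Q.eval x = P.eval (q * x) := by
    intro x
    rw [hQ, Polynomial.eval_comp]
    simp
  have hQd : Q.natDegree < r := by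
    rw [hQ]
    refine lt_of_le_of_lt (Polynomial.natDegree_comp_le) ?_
    have h1 : (C (q : ℝ) * X : ℝ[X]).natDegree ≤ 1 :=
      (Polynomial.natDegree_C_mul_le _ _).trans Polynomial.natDegree_X_le
    calc P.natDegree * (C (q : ℝ) * X : ℝ[X]).natDegree ≤ P.natDegree * 1 :=
          Nat.mul_le_mul_left _ h1
      _ < r := by omega
  have hQA : ∀ i < r, |Q.eval (i : ℝ)| ≤ A + ((q * r : ℕ) : ℝ) ^ r * η := by
    intro i hi
    have hqi : q * i ≤ q * r := Nat.mul_le_mul_left _ hi.le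
    have h5 := hPe (q * i) hqi
    have h6 := hA (q * i)
    have h7 : ((q * i).choose r : ℝ) ≤ ((q * r : ℕ) : ℝ) ^ r := by
      have h3 : (q * i).choose r ≤ (q * i) ^ r := Nat.choose_le_pow _ _
      have h4 : (q * i) ^ r ≤ (q * r) ^ r := Nat.pow_le_pow_left hqi r
      exact_mod_cast h3.trans h4
    rw [hQev, show (q : ℝ) * (i : ℝ) = ((q * i : ℕ) : ℝ) by push_cast; ring]
    have h8 : |P.eval ((q * i : ℕ) : ℝ)| ≤ |f (q * i)| +
        |f (q * i) - P.eval ((q * i : ℕ) : ℝ)| := by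
      have h11 : P.eval ((q * i : ℕ) : ℝ) = f (q * i) -
        (f (q * i) - P.eval ((q * i : ℕ) : ℝ)) := by ring
      calc |P.eval ((q * i : ℕ) : ℝ)| = |f (q * i) -
          (f (q * i) - P.eval ((q * i : ℕ) : ℝ))| := by rw [← h11]
        _ ≤ _ := abs_sub _ _
    have h9 : ((q * i).choose r : ℝ) * η ≤ ((q * r : ℕ) : ℝ) ^ r * η :=
      mul_le_mul_of_nonneg_right h7 hη0
    linarith
  have hc := hcoef Q hQd _ hQA
  set A' : ℝ := A + ((q * r : ℕ) : ℝ) ^ r * η with hA'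
  have hA'0 : 0 ≤ A' := by positivity
  have hq0 : (q : ℝ) ≠ 0 := by linarith
  have e1 : P.eval 1 = ∑ m ∈ range r, Q.coeff m * ((q : ℝ)⁻¹) ^ m := by
    rw [← Polynomial.eval_eq_sum_range' hQd, hQev, mul_inv_cancel₀ hq0]
  have e0 : P.eval 0 = ∑ m ∈ range r, Q.coeff m * (0 : ℝ) ^ m := by
    rw [← Polynomial.eval_eq_sum_range' hQd, hQev, mul_zero]
  rw [h1, h0, e1, e0, ← Finset.sum_sub_distrib]
  refine (Finset.abs_sum_le_sum_abs _ _).trans ?_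
  have hterm : ∀ m ∈ range r, |Q.coeff m * ((q : ℝ)⁻¹) ^ m - Q.coeff m * (0 : ℝ) ^ m| ≤
      B * A' / q := by
    intro m _
    rcases Nat.eq_zero_or_pos m with rfl | hm
    · simp
      positivity
    · rw [zero_pow hm.ne', mul_zero, sub_zero, abs_mul, abs_of_nonneg (by positivity : (0 : ℝ) ≤ ((q : ℝ)⁻¹) ^ m),
        div_eq_mul_inv]
      refine mul_le_mul (hc m) ?_ (by positivity) (by positivity)
      have : ((q : ℝ)⁻¹) ^ m ≤ ((q : ℝ)⁻¹) ^ 1 :=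
        pow_le_pow_of_le_one (by positivity) (inv_le_one_of_one_le₀ hqR) hm
      simpa using this
  refine (Finset.sum_le_sum hterm).trans ?_
  rw [sum_const, card_range, nsmul_eq_mul]
  exact le_of_eq (by ring)

theorem dif_dd (r : ℕ) (H : ℕ → ℝ) (n m : ℕ) :
    |dif r (fun j => H (n + 2 * j)) m| = |dd r H (n + 2 * m)| := by
  rw [Pool.Agent.J4H96.WP.dif_eq_fwd, dd_abs]

theorem dd_succ (r : ℕ) (H : ℕ → ℝ) (n : ℕ) :
    |dd (r + 1) H n| = |dd r (fun m => H (m + 2) - H m) n| := by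
  have h1 := dif_dd (r + 1) H n 0
  have h2 := dif_dd r (fun m => H (m + 2) - H m) n 0
  rw [mul_zero, add_zero] at h1 h2
  rw [← h1, ← h2, Pool.Agent.J4H96.WP.dif_succ']
  rfl

theorem gain_one {κ κ' D : ℝ} (hκ'0 : 0 ≤ κ') (hκ' : κ' < κ) (hD : 0 ≤ D) {H : ℕ → ℝ}
    (hH : Smooth κ H) (hb : ∃ C : ℝ, ∀ n : ℕ, 1 ≤ n → |H n| ≤ C * (n : ℝ) ^ (-D)) :
    ∃ C : ℝ, ∀ n : ℕ, 1 ≤ n → |H (n + 2) - H n| ≤ C * (n : ℝ) ^ (-(D + κ')) := by
  obtain ⟨r, hr⟩ := exists_nat_ge (max 2 (D / (κ - κ')))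
  have hr2 : 2 ≤ r := by exact_mod_cast (le_max_left _ _).trans hr
  have hrD : D ≤ (κ - κ') * r := by
    have := (le_max_right _ _).trans hr
    rw [div_le_iff₀ (by linarith)] at this
    linarith
  obtain ⟨B, hB, hfirst⟩ := first r hr2
  obtain ⟨C₀, hC₀⟩ := hb
  obtain ⟨C₁, hC₁⟩ := hH r (by omega)
  refine ⟨B * (|C₀| + (2 * r) ^ r * |C₁|), fun n hn => ?_⟩
  have hn1 : (1 : ℝ) ≤ n := by exact_mod_cast hn
  have hn0 : (0 : ℝ) < n := by linarith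
  set q : ℕ := ⌈(n : ℝ) ^ κ'⌉₊ with hq
  have hpow1 : (1 : ℝ) ≤ (n : ℝ) ^ κ' := Real.one_le_rpow hn1 hκ'0
  have hq1 : (n : ℝ) ^ κ' ≤ q := Nat.le_ceil _
  have hq2 : (q : ℝ) ≤ 2 * (n : ℝ) ^ κ' := by
    have := Nat.ceil_lt_add_one (show 0 ≤ (n : ℝ) ^ κ' by positivity)
    rw [← hq] at this
    linarith
  have hq3 : 1 ≤ q := by
    have : (1 : ℝ) ≤ q := hpow1.trans hq1
    exact_mod_cast this
  have hle : ∀ m : ℕ, (n : ℝ) ≤ ((n + 2 * m : ℕ) : ℝ) := fun m => by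
    push_cast
    have : (0 : ℝ) ≤ m := Nat.cast_nonneg m
    linarith
  have hr0 : (0 : ℝ) ≤ r := Nat.cast_nonneg r
  have hκr : 0 ≤ κ * r := by
    have : 0 ≤ κ := by linarith
    positivity
  have hm := hfirst (fun j => H (n + 2 * j)) q (|C₀| * (n : ℝ) ^ (-D)) (|C₁| * (n : ℝ) ^ (-(κ * r))) hq3
    (fun m => by
      rw [dif_dd]
      calc |dd r H (n + 2 * m)| ≤ C₁ * ((n + 2 * m : ℕ) : ℝ) ^ (-(κ * r)) := hC₁ _ (by omega)
        _ ≤ |C₁| * ((n + 2 * m : ℕ) : ℝ) ^ (-(κ * r)) :=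
          mul_le_mul_of_nonneg_right (le_abs_self _) (by positivity)
        _ ≤ |C₁| * (n : ℝ) ^ (-(κ * r)) := mul_le_mul_of_nonneg_left
          (Real.rpow_le_rpow_of_nonpos hn0 (hle m) (by linarith)) (abs_nonneg _))
    (fun m => by
      calc |H (n + 2 * m)| ≤ C₀ * ((n + 2 * m : ℕ) : ℝ) ^ (-D) := hC₀ _ (by omega)
        _ ≤ |C₀| * ((n + 2 * m : ℕ) : ℝ) ^ (-D) :=
          mul_le_mul_of_nonneg_right (le_abs_self _) (by positivity)
        _ ≤ |C₀| * (n : ℝ) ^ (-D) := mul_le_mul_of_nonneg_left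
          (Real.rpow_le_rpow_of_nonpos hn0 (hle m) (by linarith)) (abs_nonneg _))
  have e0 : |H (n + 2) - H n| = |(fun j => H (n + 2 * j)) 1 - (fun j => H (n + 2 * j)) 0| := by
    simp
  rw [e0]
  refine hm.trans ?_
  have h1 : ((q * r : ℕ) : ℝ) ^ r * (|C₁| * (n : ℝ) ^ (-(κ * r))) ≤
      (2 * r) ^ r * |C₁| * (n : ℝ) ^ (-D) := by
    have e1 : ((q * r : ℕ) : ℝ) ^ r ≤ (2 * r) ^ r * (n : ℝ) ^ (κ' * r) := by
      have : ((q * r : ℕ) : ℝ) ≤ (2 * r) * (n : ℝ) ^ κ' := by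
        push_cast
        calc (q : ℝ) * r ≤ 2 * (n : ℝ) ^ κ' * r := mul_le_mul_of_nonneg_right hq2 hr0
          _ = 2 * r * (n : ℝ) ^ κ' := by ring
      calc ((q * r : ℕ) : ℝ) ^ r ≤ ((2 * r) * (n : ℝ) ^ κ') ^ r :=
            pow_le_pow_left₀ (Nat.cast_nonneg _) this r
        _ = (2 * r) ^ r * (n : ℝ) ^ (κ' * r) := by
          rw [mul_pow, Real.rpow_mul_natCast hn0.le]
    calc ((q * r : ℕ) : ℝ) ^ r * (|C₁| * (n : ℝ) ^ (-(κ * r)))
        ≤ (2 * r) ^ r * (n : ℝ) ^ (κ' * r) * (|C₁| * (n : ℝ) ^ (-(κ * r))) :=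
          mul_le_mul_of_nonneg_right e1 (by positivity)
      _ = (2 * r) ^ r * |C₁| * ((n : ℝ) ^ (κ' * r) * (n : ℝ) ^ (-(κ * r))) := by ring
      _ = (2 * r) ^ r * |C₁| * (n : ℝ) ^ (κ' * r + -(κ * r)) := by rw [Real.rpow_add hn0]
      _ ≤ (2 * r) ^ r * |C₁| * (n : ℝ) ^ (-D) := by
        refine mul_le_mul_of_nonneg_left (Real.rpow_le_rpow_of_exponent_le hn1 ?_) (by positivity)
        linarith
  rw [div_le_iff₀ (by linarith)]
  have e2 : (n : ℝ) ^ (-D) = (n : ℝ) ^ (-(D + κ')) * (n : ℝ) ^ κ' := by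
    rw [← Real.rpow_add hn0]
    congr 1
    ring
  calc B * (|C₀| * (n : ℝ) ^ (-D) + ((q * r : ℕ) : ℝ) ^ r * (|C₁| * (n : ℝ) ^ (-(κ * r))))
      ≤ B * (|C₀| * (n : ℝ) ^ (-D) + (2 * r) ^ r * |C₁| * (n : ℝ) ^ (-D)) :=
        mul_le_mul_of_nonneg_left (by linarith) hB
    _ = B * (|C₀| + (2 * r) ^ r * |C₁|) * (n : ℝ) ^ (-(D + κ')) * (n : ℝ) ^ κ' := by
        rw [e2]
        ring
    _ ≤ B * (|C₀| + (2 * r) ^ r * |C₁|) * (n : ℝ) ^ (-(D + κ')) * q :=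
        mul_le_mul_of_nonneg_left hq1 (by positivity)

theorem gain {κ κ' : ℝ} (hκ'0 : 0 ≤ κ') (hκ' : κ' < κ) (j : ℕ) : ∀ (H : ℕ → ℝ) (D : ℝ), 0 ≤ D →
    Smooth κ H → (∃ C : ℝ, ∀ n : ℕ, 1 ≤ n → |H n| ≤ C * (n : ℝ) ^ (-D)) →
    ∃ C : ℝ, ∀ n : ℕ, 1 ≤ n → |dd j H n| ≤ C * (n : ℝ) ^ (-(D + j * κ')) := by
  induction j with
  | zero =>
    intro H D hD hH hb
    obtain ⟨C, hC⟩ := hb
    refine ⟨C, fun n hn => ?_⟩
    simpa [dd] using hC n hn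
  | succ j ih =>
    intro H D hD hH hb
    have h1 := gain_one hκ'0 hκ' hD hH hb
    have hκ0 : 0 ≤ κ := by linarith
    have h2 : Smooth κ (fun m => H (m + 2) - H m) := by
      intro r hr
      obtain ⟨C, hC⟩ := hH (r + 1) (by omega)
      refine ⟨|C|, fun n hn => ?_⟩
      have hn1 : (1 : ℝ) ≤ n := by exact_mod_cast hn
      rw [← dd_succ]
      calc |dd (r + 1) H n| ≤ C * (n : ℝ) ^ (-(κ * (r + 1 : ℕ))) := hC n hn
        _ ≤ |C| * (n : ℝ) ^ (-(κ * (r + 1 : ℕ))) :=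
          mul_le_mul_of_nonneg_right (le_abs_self C) (by positivity)
        _ ≤ |C| * (n : ℝ) ^ (-(κ * r)) := by
          refine mul_le_mul_of_nonneg_left (Real.rpow_le_rpow_of_exponent_le hn1 ?_) (abs_nonneg C)
          push_cast
          nlinarith
    obtain ⟨C, hC⟩ := ih (fun m => H (m + 2) - H m) (D + κ') (by linarith) h2 h1
    refine ⟨C, fun n hn => ?_⟩
    rw [dd_succ]
    refine (hC n hn).trans (le_of_eq ?_)
    congr 2
    push_cast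
    ring

end Pool.Agent.J4H67.SL
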