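import Pool.Agent.J4H67.SL.Ratio

/-!
Upper bounds at some lengths and lower bounds at others.
-/

set_option autoImplicit false

namespace Pool.Agent.J4H67.SL

open Filter Topology Finset

/-- discrete intermediate value theorem -/
theorem ivt (f : ℕ → ℝ) (N : ℕ) (h0 : f 0 < 0) (hN : 0 < f N) : ∃ j < N, |f j| ≤ |f (j + 1) - f j| := by
  classical
  have hex : ∃ j, 0 ≤ f j := ⟨N, hN.le⟩
  obtain ⟨k, hk⟩ : ∃ k, Nat.find hex = k := ⟨_, rfl⟩
  have hk1 : 0 ≤ f k := hk ▸ Nat.find_spec hex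
  have hk0 : k ≠ 0 := by
    rintro rfl
    linarith
  have hkN : k ≤ N := hk ▸ Nat.find_min' hex hN.le
  obtain ⟨j, rfl⟩ : ∃ j, k = j + 1 := ⟨k - 1, by omega⟩
  have hj : f j < 0 := by
    by_contra hcon
    have := Nat.find_min' hex (not_lt.1 hcon)
    omega
  refine ⟨j, by omega, ?_⟩
  rw [abs_of_neg hj, abs_of_nonneg (by linarith)]
  linarith

theorem ivt' (f : ℕ → ℝ) (N : ℕ) (h : f 0 < 0 ∧ 0 < f N ∨ 0 < f 0 ∧ f N < 0) :
    ∃ j < N, |f j| ≤ |f (j + 1) - f j| := by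
  rcases h with ⟨h0, hN⟩ | ⟨h0, hN⟩
  · exact ivt f N h0 hN
  · obtain ⟨j, hj, h1⟩ := ivt (fun i => -f i) N (by simpa using h0) (by simpa using hN)
    refine ⟨j, hj, ?_⟩
    have e1 : |-f j| = |f j| := abs_neg _
    have e2 : |-f (j + 1) - -f j| = |f (j + 1) - f j| := by
      rw [← abs_neg]
      congr 1
      ring
    simp only [e1, e2] at h1
    exact h1

/-- one step of the bootstrap -/
theorem step {κ ρ : ℝ} (hρ0 : 0 ≤ ρ) (hρ1 : ρ < 1) (hκρ : ρ < κ) {H : ℕ → ℝ} (hH : Smooth κ H)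
    {S S' : Set ℕ} (hS : Meets S ρ) (hS' : Meets S' ρ) {D E : ℝ} (hD : 0 ≤ D) (hE : 0 ≤ E)
    (hup : ∃ C : ℝ, ∀ᶠ n : ℕ in atTop ⊓ 𝓟 S, H n ≤ C * (n : ℝ) ^ (-D))
    (hlo : ∃ C : ℝ, ∀ᶠ n : ℕ in atTop ⊓ 𝓟 S', -(C * (n : ℝ) ^ (-D)) ≤ H n)
    (hd : ∃ C : ℝ, ∀ n : ℕ, 1 ≤ n → |H (n + 2) - H n| ≤ C * (n : ℝ) ^ (-E)) :
    H =O[atTop] fun n : ℕ => (n : ℝ) ^ (-(min D E)) := by
  obtain ⟨A, hA⟩ := hup
  obtain ⟨B, hB⟩ := hlo
  obtain ⟨C, hC⟩ := hd
  rw [eventually_inf_principal, eventually_atTop] at hA hB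
  obtain ⟨N₁, hN₁⟩ := hA
  obtain ⟨N₂, hN₂⟩ := hB
  set M : ℝ := max |A| |B| with hM
  set T : Set ℕ := {m | |H m| ≤ (M + |C|) * (m : ℝ) ^ (-(min D E))} with hT
  have hM0 : 0 ≤ M := (abs_nonneg A).trans (le_max_left _ _)
  have hpD : ∀ m : ℕ, 1 ≤ m → (m : ℝ) ^ (-D) ≤ (m : ℝ) ^ (-(min D E)) := fun m hm =>
    Real.rpow_le_rpow_of_exponent_le (by exact_mod_cast hm) (by linarith [min_le_left D E])
  have hpE : ∀ m : ℕ, 1 ≤ m → (m : ℝ) ^ (-E) ≤ (m : ℝ) ^ (-(min D E)) := fun m hm =>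
    Real.rpow_le_rpow_of_exponent_le (by exact_mod_cast hm) (by linarith [min_le_right D E])
  have hmT : ∀ m : ℕ, 1 ≤ m → |H m| ≤ M * (m : ℝ) ^ (-D) → m ∈ T := by
    intro m hm h
    show |H m| ≤ (M + |C|) * (m : ℝ) ^ (-(min D E))
    calc |H m| ≤ M * (m : ℝ) ^ (-D) := h
      _ ≤ M * (m : ℝ) ^ (-(min D E)) := mul_le_mul_of_nonneg_left (hpD m hm) hM0
      _ ≤ (M + |C|) * (m : ℝ) ^ (-(min D E)) :=
        mul_le_mul_of_nonneg_right (by linarith [abs_nonneg C]) (by positivity)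
  have hmT' : ∀ m : ℕ, 1 ≤ m → |H m| ≤ |H (m + 2) - H m| → m ∈ T := by
    intro m hm h
    show |H m| ≤ (M + |C|) * (m : ℝ) ^ (-(min D E))
    calc |H m| ≤ |H (m + 2) - H m| := h
      _ ≤ C * (m : ℝ) ^ (-E) := hC m hm
      _ ≤ |C| * (m : ℝ) ^ (-E) := mul_le_mul_of_nonneg_right (le_abs_self C) (by positivity)
      _ ≤ |C| * (m : ℝ) ^ (-(min D E)) := mul_le_mul_of_nonneg_left (hpE m hm) (abs_nonneg C)
      _ ≤ (M + |C|) * (m : ℝ) ^ (-(min D E)) :=
        mul_le_mul_of_nonneg_right (by linarith) (by positivity)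
  have hmeet : Meets T ρ := by
    filter_upwards [hS, hS', eventually_ge_atTop (max (max N₁ N₂) 1)] with n h1 h2 hn
    obtain ⟨s, hs, hns, hsn, hsp⟩ := h1
    obtain ⟨t, ht, hnt, htn, htp⟩ := h2
    have hn1 : N₁ ≤ n := (le_max_left _ _).trans ((le_max_left _ _).trans hn)
    have hn2 : N₂ ≤ n := (le_max_right _ _).trans ((le_max_left _ _).trans hn)
    have hn3 : 1 ≤ n := (le_max_right _ _).trans hn
    have hHs := hN₁ s (hn1.trans hns) hs
    have hHt := hN₂ t (hn2.trans hnt) ht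
    have hHs' : H s ≤ M * (s : ℝ) ^ (-D) := hHs.trans
      (mul_le_mul_of_nonneg_right ((le_abs_self A).trans (le_max_left _ _)) (by positivity))
    have hHt' : -(M * (t : ℝ) ^ (-D)) ≤ H t := by
      have : B * (t : ℝ) ^ (-D) ≤ M * (t : ℝ) ^ (-D) :=
        mul_le_mul_of_nonneg_right ((le_abs_self B).trans (le_max_right _ _)) (by positivity)
      linarith
    by_cases c1 : -(M * (s : ℝ) ^ (-D)) ≤ H s
    · exact ⟨s, hmT s (hn3.trans hns) (abs_le.2 ⟨c1, hHs'⟩), hns, hsn, hsp⟩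
    by_cases c2 : H t ≤ M * (t : ℝ) ^ (-D)
    · exact ⟨t, hmT t (hn3.trans hnt) (abs_le.2 ⟨hHt', c2⟩), hnt, htn, htp⟩
    push Not at c1 c2
    have hsneg : H s < 0 := c1.trans_le (by
      have : 0 ≤ M * (s : ℝ) ^ (-D) := by positivity
      linarith)
    have htpos : 0 < H t := lt_of_le_of_lt (by positivity) c2
    rcases le_total s t with hst | hst
    · obtain ⟨j, hj, h3⟩ := ivt' (fun j => H (s + 2 * j)) ((t - s) / 2) (Or.inl ⟨by simpa using hsneg, by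
        rw [show s + 2 * ((t - s) / 2) = t by omega]
        exact htpos⟩)
      have hle : s + 2 * j ≤ t := by omega
      refine ⟨s + 2 * j, hmT' _ (by omega) h3, by omega, ?_, by omega⟩
      exact le_trans (by exact_mod_cast hle) htn
    · obtain ⟨j, hj, h3⟩ := ivt' (fun j => H (t + 2 * j)) ((s - t) / 2) (Or.inr ⟨by simpa using htpos, by
        rw [show t + 2 * ((s - t) / 2) = s by omega]
        exact hsneg⟩)
      have hle : t + 2 * j ≤ s := by omega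
      refine ⟨t + 2 * j, hmT' _ (by omega) h3, by omega, ?_, by omega⟩
      exact le_trans (by exact_mod_cast hle) hsn
  refine core_rate hρ0 hρ1 hκρ hH hmeet (le_min hD hE) ?_
  refine Asymptotics.IsBigO.of_bound (M + |C|) ?_
  rw [eventually_inf_principal]
  refine Eventually.of_forall fun m hm => ?_
  rw [Real.norm_eq_abs, Real.norm_of_nonneg (by positivity)]
  exact hm

/-- upper bounds along `S` and lower bounds along `S'` -/
theorem interlaced {κ ρ : ℝ} (hρ0 : 0 ≤ ρ) (hρ1 : ρ < 1) (hκρ : ρ < κ) {H : ℕ → ℝ} (hH : Smooth κ H)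
    {S S' : Set ℕ} (hS : Meets S ρ) (hS' : Meets S' ρ) {D : ℝ} (hD : 0 ≤ D)
    (hup : ∃ C : ℝ, ∀ᶠ n : ℕ in atTop ⊓ 𝓟 S, H n ≤ C * (n : ℝ) ^ (-D))
    (hlo : ∃ C : ℝ, ∀ᶠ n : ℕ in atTop ⊓ 𝓟 S', -(C * (n : ℝ) ^ (-D)) ≤ H n) :
    H =O[atTop] fun n : ℕ => (n : ℝ) ^ (-D) := by
  have hκ0 : 0 < κ := hρ0.trans_lt hκρ
  have hk : ∀ k : ℕ, H =O[atTop] fun n : ℕ => (n : ℝ) ^ (-(min D (k * (κ / 2)))) := by
    intro k
    induction k with
    | zero =>
      have h1 : ∃ C : ℝ, ∀ n : ℕ, 1 ≤ n → |H (n + 2) - H n| ≤ C * (n : ℝ) ^ (-(0 : ℝ)) := by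
        obtain ⟨C, hC⟩ := hH 1 le_rfl
        refine ⟨|C|, fun n hn => ?_⟩
        have hn1 : (1 : ℝ) ≤ n := by exact_mod_cast hn
        have h2 := dd_succ 0 H n
        simp only [dd, sum_range_succ, sum_range_zero, zero_add, pow_zero, pow_one,
          Nat.choose_zero_right, Nat.choose_self, Nat.cast_one, one_mul, mul_one, mul_zero,
          add_zero] at h2
        have h3 := hC n hn
        simp only [dd, sum_range_succ, sum_range_zero, zero_add, pow_zero, pow_one,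
          Nat.choose_zero_right, Nat.choose_self, Nat.cast_one, one_mul, mul_one, mul_zero,
          add_zero] at h3
        rw [h2] at h3
        calc |H (n + 2) - H n| ≤ C * (n : ℝ) ^ (-κ) := h3
          _ ≤ |C| * (n : ℝ) ^ (-κ) := mul_le_mul_of_nonneg_right (le_abs_self C) (by positivity)
          _ ≤ |C| * (n : ℝ) ^ (-(0 : ℝ)) := mul_le_mul_of_nonneg_left
            (Real.rpow_le_rpow_of_exponent_le hn1 (by linarith)) (abs_nonneg C)
      have h2 := step hρ0 hρ1 hκρ hH hS hS' hD le_rfl hup hlo h1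
      simpa using h2
    | succ k ih =>
      have hm0 : 0 ≤ min D (k * (κ / 2)) := le_min hD (by positivity)
      have h1 := gain_one (κ' := κ / 2) (by linarith) (by linarith) hm0 hH (all_of_bigO ih)
      have h2 := step hρ0 hρ1 hκρ hH hS hS' hD (by linarith) hup hlo h1
      have e : min D (min D (k * (κ / 2)) + κ / 2) = min D (((k + 1 : ℕ) : ℝ) * (κ / 2)) := by
        push_cast
        rcases le_total D (k * (κ / 2)) with h3 | h3
        · rw [min_eq_left h3, min_eq_left (by linarith), min_eq_left (by linarith)]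
        · rw [min_eq_right h3]
          congr 1
          ring
      rw [e] at h2
      exact h2
  obtain ⟨k, hk1⟩ := exists_nat_ge (D / (κ / 2))
  rw [div_le_iff₀ (by linarith)] at hk1
  have := hk k
  rwa [min_eq_left hk1] at this

end Pool.Agent.J4H67.SL
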