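import Pool.Agent.J4H67.SL.Inter

/-!
Upper bounds at some lengths and lower bounds at others: the case `o(1)`, and power laws.
-/

set_option autoImplicit false

namespace Pool.Agent.J4H67.SL

open Filter Topology Finset

theorem tele {κ : ℝ} (hκ : 0 ≤ κ) {H : ℕ → ℝ} (hH : Smooth κ H) : ∃ C : ℝ, 0 ≤ C ∧
    ∀ n : ℕ, 1 ≤ n → ∀ j : ℕ, |H (n + 2 * j) - H n| ≤ j * (C * (n : ℝ) ^ (-κ)) := by
  obtain ⟨C, hC⟩ := hH 1 le_rfl
  refine ⟨|C|, abs_nonneg C, fun n hn j => ?_⟩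
  have hn0 : (0 : ℝ) < n := by exact_mod_cast hn
  induction j with
  | zero => simp
  | succ j ih =>
    have h2 := dd_succ 0 H (n + 2 * j)
    have h3 := hC (n + 2 * j) (by omega)
    simp only [dd, sum_range_succ, sum_range_zero, zero_add, pow_zero, pow_one,
      Nat.choose_zero_right, Nat.choose_self, Nat.cast_one, one_mul, mul_one, mul_zero,
      add_zero] at h2 h3
    rw [h2] at h3
    have h4 : ((n + 2 * j : ℕ) : ℝ) ^ (-κ) ≤ (n : ℝ) ^ (-κ) :=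
      Real.rpow_le_rpow_of_nonpos hn0 (by exact_mod_cast (by omega : n ≤ n + 2 * j)) (by linarith)
    have h5 : |H (n + 2 * j + 2) - H (n + 2 * j)| ≤ |C| * (n : ℝ) ^ (-κ) :=
      calc _ ≤ C * ((n + 2 * j : ℕ) : ℝ) ^ (-κ) := h3
        _ ≤ |C| * ((n + 2 * j : ℕ) : ℝ) ^ (-κ) :=
          mul_le_mul_of_nonneg_right (le_abs_self C) (by positivity)
        _ ≤ |C| * (n : ℝ) ^ (-κ) := mul_le_mul_of_nonneg_left h4 (abs_nonneg C)
    have e : H (n + 2 * (j + 1)) - H n =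
        (H (n + 2 * j + 2) - H (n + 2 * j)) + (H (n + 2 * j) - H n) := by
      rw [show n + 2 * (j + 1) = n + 2 * j + 2 by ring]
      ring
    rw [e]
    refine (abs_add_le _ _).trans ?_
    push_cast
    linarith

theorem inter_zero {κ ρ : ℝ} (hρ0 : 0 ≤ ρ) (hκρ : ρ < κ) {H : ℕ → ℝ} (hH : Smooth κ H)
    {S S' : Set ℕ} (hS : Meets S ρ) (hS' : Meets S' ρ)
    (hup : ∀ δ : ℝ, 0 < δ → ∀ᶠ n : ℕ in atTop ⊓ 𝓟 S, H n ≤ δ)
    (hlo : ∀ δ : ℝ, 0 < δ → ∀ᶠ n : ℕ in atTop ⊓ 𝓟 S', -δ ≤ H n) : Tendsto H atTop (𝓝 0) := by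
  obtain ⟨C, hC0, hC⟩ := tele (by linarith) hH
  have hsmall : Tendsto (fun n : ℕ => C * (n : ℝ) ^ (-(κ - ρ))) atTop (𝓝 0) := by
    have := ((tendsto_rpow_neg_atTop (show 0 < κ - ρ by linarith)).comp
      (tendsto_natCast_atTop_atTop (R := ℝ))).const_mul C
    simpa using this
  rw [Metric.tendsto_nhds]
  intro ε hε
  have hA := hup (ε / 3) (by linarith)
  have hB := hlo (ε / 3) (by linarith)
  rw [eventually_inf_principal, eventually_atTop] at hA hB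
  obtain ⟨N₁, hN₁⟩ := hA
  obtain ⟨N₂, hN₂⟩ := hB
  have hs := (Metric.tendsto_nhds.1 hsmall) (ε / 3) (by linarith)
  filter_upwards [hS, hS', eventually_ge_atTop (max (max N₁ N₂) 1), hs] with n h1 h2 hn hs
  obtain ⟨s, hs1, hns, hsn, hsp⟩ := h1
  obtain ⟨t, ht, hnt, htn, htp⟩ := h2
  have hn1 : N₁ ≤ n := (le_max_left _ _).trans ((le_max_left _ _).trans hn)
  have hn2 : N₂ ≤ n := (le_max_right _ _).trans ((le_max_left _ _).trans hn)
  have hn3 : 1 ≤ n := (le_max_right _ _).trans hn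
  have hn0 : (0 : ℝ) < n := by exact_mod_cast hn3
  have key : ∀ m : ℕ, n ≤ m → (m : ℝ) ≤ n + (n : ℝ) ^ ρ → m % 2 = n % 2 →
      |H m - H n| < ε / 3 := by
    intro m hm1 hm2 hm3
    have h3 := hC n hn3 ((m - n) / 2)
    rw [show n + 2 * ((m - n) / 2) = m by omega] at h3
    have h4 : (((m - n) / 2 : ℕ) : ℝ) ≤ (n : ℝ) ^ ρ := by
      have h5 : (((m - n) / 2 : ℕ) : ℝ) ≤ ((m - n : ℕ) : ℝ) := by
        exact_mod_cast Nat.div_le_self _ _
      rw [Nat.cast_sub hm1] at h5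
      linarith
    calc |H m - H n| ≤ (((m - n) / 2 : ℕ) : ℝ) * (C * (n : ℝ) ^ (-κ)) := h3
      _ ≤ (n : ℝ) ^ ρ * (C * (n : ℝ) ^ (-κ)) := mul_le_mul_of_nonneg_right h4 (by positivity)
      _ = C * (n : ℝ) ^ (-(κ - ρ)) := by
        rw [mul_left_comm, ← Real.rpow_add hn0]
        congr 2
        ring
      _ ≤ |C * (n : ℝ) ^ (-(κ - ρ)) - 0| := by
        rw [sub_zero]
        exact le_abs_self _
      _ < ε / 3 := by
        rw [← Real.dist_eq]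
        exact hs
  have a1 := abs_lt.1 (key s hns hsn hsp)
  have a2 := abs_lt.1 (key t hnt htn htp)
  have a3 := hN₁ s (hn1.trans hns) hs1
  have a4 := hN₂ t (hn2.trans hnt) ht
  rw [Real.dist_eq, sub_zero, abs_lt]
  constructor <;> linarith [a1.1, a1.2, a2.1, a2.2]

/-- the general form, for `L = log (c_n / μ^n)` -/
theorem inter_phi {L : ℕ → ℝ} (hL : ∀ κ : ℝ, κ < 1 / 3 → Smooth κ L) {ε : ℝ} (hε : 0 < ε)
    (hε' : ε ≤ 1 / 3) {S S' : Set ℕ} (hS : Meets S (1 / 3 - ε)) (hS' : Meets S' (1 / 3 - ε))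
    {κ : ℝ} (hκ : 1 / 3 - ε < κ) {φ : ℕ → ℝ} (hφ : Smooth κ φ) :
    ((∀ δ : ℝ, 0 < δ → ∀ᶠ n : ℕ in atTop ⊓ 𝓟 S, L n ≤ φ n + δ) →
      (∀ δ : ℝ, 0 < δ → ∀ᶠ n : ℕ in atTop ⊓ 𝓟 S', φ n - δ ≤ L n) →
      Tendsto (fun n => L n - φ n) atTop (𝓝 0)) ∧
    ∀ D : ℝ, 0 ≤ D →
      (∃ C : ℝ, ∀ᶠ n : ℕ in atTop ⊓ 𝓟 S, L n ≤ φ n + C * (n : ℝ) ^ (-D)) →
      (∃ C : ℝ, ∀ᶠ n : ℕ in atTop ⊓ 𝓟 S', φ n - C * (n : ℝ) ^ (-D) ≤ L n) →
      (fun n => L n - φ n) =O[atTop] fun n : ℕ => (n : ℝ) ^ (-D) := by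
  set κ' : ℝ := min κ (1 / 3 - ε / 2) with hκ'
  have h1 : 1 / 3 - ε < κ' := lt_min hκ (by linarith)
  have h2 : κ' < 1 / 3 := (min_le_right _ _).trans_lt (by linarith)
  have hH : Smooth κ' (fun n => L n - φ n) := (hL κ' h2).sub (hφ.mono (min_le_left _ _))
  refine ⟨fun hu hl => inter_zero (by linarith) h1 hH hS hS' (fun δ hδ => ?_) (fun δ hδ => ?_),
    fun D hD hu hl => interlaced (by linarith) (by linarith) h1 hH hS hS' hD ?_ ?_⟩
  · exact (hu δ hδ).mono fun n hn => by linarith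
  · exact (hl δ hδ).mono fun n hn => by linarith
  · exact hu.imp fun C hC => hC.mono fun n hn => by linarith
  · exact hl.imp fun C hC => hC.mono fun n hn => by linarith

theorem exp_neg_two_le {y : ℝ} (h0 : 0 ≤ y) (h1 : y ≤ 1 / 2) : Real.exp (-(2 * y)) ≤ 1 - y := by
  rw [Real.exp_neg]
  have h2 : 1 + 2 * y ≤ Real.exp (2 * y) := by
    have := Real.add_one_le_exp (2 * y)
    linarith
  calc (Real.exp (2 * y))⁻¹ ≤ (1 + 2 * y)⁻¹ := inv_anti₀ (by linarith) h2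
    _ ≤ 1 - y := by
      rw [inv_le_iff_one_le_mul₀ (by linarith)]
      nlinarith

/-- power laws -/
theorem inter_pow {u : ℕ → ℝ} (hu : ∀ n, 0 < u n)
    (hL : ∀ κ : ℝ, κ < 1 / 3 → Smooth κ (fun n => Real.log (u n))) {ε : ℝ} (hε : 0 < ε)
    (hε' : ε ≤ 1 / 3) {S S' : Set ℕ} (hS : Meets S (1 / 3 - ε)) (hS' : Meets S' (1 / 3 - ε))
    {A : ℝ} (hA : 0 < A) (g : ℝ) :
    ((∀ δ : ℝ, 0 < δ → ∀ᶠ n : ℕ in atTop ⊓ 𝓟 S, u n ≤ (1 + δ) * (A * (n : ℝ) ^ g)) →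
      (∀ δ : ℝ, 0 < δ → ∀ᶠ n : ℕ in atTop ⊓ 𝓟 S', (1 - δ) * (A * (n : ℝ) ^ g) ≤ u n) →
      Tendsto (fun n : ℕ => u n / (A * (n : ℝ) ^ g)) atTop (𝓝 1)) ∧
    ∀ D : ℝ, 0 < D →
      (∃ C : ℝ, ∀ᶠ n : ℕ in atTop ⊓ 𝓟 S, u n ≤ (1 + C * (n : ℝ) ^ (-D)) * (A * (n : ℝ) ^ g)) →
      (∃ C : ℝ, ∀ᶠ n : ℕ in atTop ⊓ 𝓟 S', (1 - C * (n : ℝ) ^ (-D)) * (A * (n : ℝ) ^ g) ≤ u n) →
      (fun n : ℕ => u n / (A * (n : ℝ) ^ g) - 1) =O[atTop] fun n : ℕ => (n : ℝ) ^ (-D) := by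
  have hT := inter_phi hL hε hε' hS hS' (show 1 / 3 - ε < 1 by linarith)
    (smooth_log (Real.log A) g)
  have hpos : ∀ᶠ n : ℕ in atTop, 0 < u n / (A * (n : ℝ) ^ g) := by
    filter_upwards [eventually_ge_atTop 1] with n hn
    have : (0 : ℝ) < n := by exact_mod_cast hn
    have := hu n
    positivity
  have hlog : ∀ᶠ n : ℕ in atTop, Real.log (u n / (A * (n : ℝ) ^ g)) =
      Real.log (u n) - (Real.log A + g * Real.log n) := by
    filter_upwards [eventually_ge_atTop 1] with n hn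
    have hn0 : (0 : ℝ) < n := by exact_mod_cast hn
    rw [Real.log_div (hu n).ne' (by positivity), Real.log_mul hA.ne' (by positivity),
      Real.log_rpow hn0]
  have hle : ∀ S : Set ℕ, (atTop ⊓ 𝓟 S : Filter ℕ) ≤ atTop := fun S => inf_le_left
  -- upper bounds
  have hupper : ∀ (S : Set ℕ) (x : ℕ → ℝ),
      (∀ᶠ n : ℕ in atTop ⊓ 𝓟 S, u n ≤ (1 + x n) * (A * (n : ℝ) ^ g)) →
      ∀ᶠ n : ℕ in atTop ⊓ 𝓟 S, Real.log (u n) ≤ (Real.log A + g * Real.log n) + x n := by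
    intro S x h
    filter_upwards [h, hlog.filter_mono (hle S), hpos.filter_mono (hle S),
      (eventually_ge_atTop 1).filter_mono (hle S)] with n h1 h2 h3 hn
    have hn0 : (0 : ℝ) < n := by exact_mod_cast hn
    have h4 : u n / (A * (n : ℝ) ^ g) ≤ 1 + x n := by
      rw [div_le_iff₀ (by positivity)]
      exact h1
    have h5 : Real.log (u n / (A * (n : ℝ) ^ g)) ≤ x n := by
      have := Real.log_le_sub_one_of_pos h3
      linarith
    linarith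
  refine ⟨fun h1 h2 => ?_, fun D hD h1 h2 => ?_⟩
  · have h3 := hT.1 (fun δ hδ => hupper S (fun _ => δ) (h1 δ hδ)) (fun δ hδ => by
      have h5 := h2 (1 - Real.exp (-δ)) (by
        have : Real.exp (-δ) < 1 := by
          rw [Real.exp_lt_one_iff]
          linarith
        linarith)
      filter_upwards [h5, hlog.filter_mono (hle S'), hpos.filter_mono (hle S'),
        (eventually_ge_atTop 1).filter_mono (hle S')] with n h6 h7 h8 hn
      have hn0 : (0 : ℝ) < n := by exact_mod_cast hn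
      have h9 : Real.exp (-δ) ≤ u n / (A * (n : ℝ) ^ g) := by
        rw [le_div_iff₀ (by positivity)]
        linarith
      have h10 : -δ ≤ Real.log (u n / (A * (n : ℝ) ^ g)) := by
        rw [Real.le_log_iff_exp_le h8]
        exact h9
      linarith)
    have h4 : Tendsto (fun n : ℕ => Real.log (u n / (A * (n : ℝ) ^ g))) atTop (𝓝 0) :=
      h3.congr' (hlog.mono fun n hn => hn.symm)
    have h5 := (Real.continuous_exp.tendsto 0).comp h4
    rw [Real.exp_zero] at h5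
    refine h5.congr' ?_
    filter_upwards [hpos] with n hn
    simp only [Function.comp]
    exact Real.exp_log hn
  · have hv : Tendsto (fun n : ℕ => (n : ℝ) ^ (-D)) atTop (𝓝 0) :=
      (tendsto_rpow_neg_atTop hD).comp (tendsto_natCast_atTop_atTop (R := ℝ))
    obtain ⟨C₁, hC₁⟩ := h1
    obtain ⟨C₂, hC₂⟩ := h2
    have hsm : ∀ᶠ n : ℕ in atTop, |C₂| * (n : ℝ) ^ (-D) ≤ 1 / 2 := by
      have h3 := hv.const_mul |C₂|
      rw [mul_zero] at h3
      exact (h3.eventually (gt_mem_nhds (show (0 : ℝ) < 1 / 2 by norm_num))).mono fun n hn => hn.le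
    have h3 := hT.2 D hD.le ⟨C₁, hupper S _ hC₁⟩ ⟨2 * |C₂|, by
      filter_upwards [hC₂, hlog.filter_mono (hle S'), hpos.filter_mono (hle S'),
        (eventually_ge_atTop 1).filter_mono (hle S'), hsm.filter_mono (hle S')] with n h6 h7 h8 hn h9
      have hn0 : (0 : ℝ) < n := by exact_mod_cast hn
      have h10 : 1 - |C₂| * (n : ℝ) ^ (-D) ≤ u n / (A * (n : ℝ) ^ g) := by
        rw [le_div_iff₀ (by positivity)]
        refine le_trans ?_ h6
        refine mul_le_mul_of_nonneg_right ?_ (by positivity)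
        have : C₂ * (n : ℝ) ^ (-D) ≤ |C₂| * (n : ℝ) ^ (-D) :=
          mul_le_mul_of_nonneg_right (le_abs_self _) (by positivity)
        linarith
      have h11 := (exp_neg_two_le (by positivity) h9).trans h10
      have h12 : -(2 * (|C₂| * (n : ℝ) ^ (-D))) ≤ Real.log (u n / (A * (n : ℝ) ^ g)) := by
        rw [Real.le_log_iff_exp_le h8]
        exact h11
      linarith⟩
    have h4 := h3.congr' (hlog.mono fun n hn => hn.symm) (EventuallyEq.refl _ _)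
    exact ratio_of_log hpos hv h4

end Pool.Agent.J4H67.SL
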