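import Pool.Agent.J4H67.SL.Pow

/-!
Transfer of asymptotic laws from sparse sets of lengths.
-/

set_option autoImplicit false

namespace Pool.Agent.J4H67.SL

open Filter Topology Finset

theorem dominated {κ : ℝ} (hκ : κ < 1 / 3) (K : ℝ) :
    ∀ᶠ n : ℕ in atTop, (n : ℝ) ^ (-(1 / 3) : ℝ) * Real.exp (K * Real.log (Real.log n) ^ 2) ≤
      (n : ℝ) ^ (-κ) := by
  set δ : ℝ := 1 / 3 - κ with hδ
  have hδ0 : 0 < δ := by rw [hδ]; linarith
  have h1 : Tendsto (fun n : ℕ => Real.log (n : ℝ)) atTop atTop :=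
    Real.tendsto_log_atTop.comp (tendsto_natCast_atTop_atTop (R := ℝ))
  have h2 := ((Real.isLittleO_pow_log_id_atTop (n := 2)).comp_tendsto h1).def
    (show (0 : ℝ) < δ / (|K| + 1) by positivity)
  filter_upwards [h2, h1.eventually_ge_atTop 0, eventually_ge_atTop 1] with n hn hl hn1
  have hnp : (0 : ℝ) < n := by exact_mod_cast hn1
  simp only [Function.comp, id, Real.norm_eq_abs] at hn
  rw [abs_of_nonneg (sq_nonneg _), abs_of_nonneg hl] at hn
  have h3 : K * Real.log (Real.log n) ^ 2 ≤ δ * Real.log n := by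
    have e1 : K * Real.log (Real.log n) ^ 2 ≤ |K| * Real.log (Real.log n) ^ 2 :=
      mul_le_mul_of_nonneg_right (le_abs_self K) (sq_nonneg _)
    have e2 : |K| * Real.log (Real.log n) ^ 2 ≤ |K| * (δ / (|K| + 1) * Real.log n) :=
      mul_le_mul_of_nonneg_left hn (abs_nonneg K)
    have e3 : |K| * (δ / (|K| + 1) * Real.log n) ≤ δ * Real.log n := by
      have e4 : |K| * (δ / (|K| + 1)) ≤ δ := by
        rw [← mul_div_assoc, div_le_iff₀ (by positivity)]
        nlinarith [abs_nonneg K]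
      calc |K| * (δ / (|K| + 1) * Real.log n) = |K| * (δ / (|K| + 1)) * Real.log n := by ring
        _ ≤ δ * Real.log n := mul_le_mul_of_nonneg_right e4 hl
    linarith
  have h4 : Real.exp (K * Real.log (Real.log n) ^ 2) ≤ (n : ℝ) ^ δ := by
    rw [Real.rpow_def_of_pos hnp, mul_comm (Real.log n)]
    exact Real.exp_le_exp.2 h3
  calc (n : ℝ) ^ (-(1 / 3) : ℝ) * Real.exp (K * Real.log (Real.log n) ^ 2)
      ≤ (n : ℝ) ^ (-(1 / 3) : ℝ) * (n : ℝ) ^ δ := mul_le_mul_of_nonneg_left h4 (by positivity)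
    _ = (n : ℝ) ^ (-κ) := by
      rw [← Real.rpow_add hnp]
      congr 1
      rw [hδ]
      ring

/-- the bound for all orders gives smoothness of every exponent below `1/3` -/
theorem smooth_of_third {L : ℕ → ℝ} {K : ℝ}
    (h : ∀ r : ℕ, 1 ≤ r → ∃ C : ℝ, ∀ n : ℕ, 3 ≤ n → |dd r L n| ≤
      C * ((n : ℝ) ^ (-(1 / 3) : ℝ) * Real.exp (K * Real.log (Real.log n) ^ 2)) ^ r)
    {κ : ℝ} (hκ : κ < 1 / 3) : Smooth κ L := by
  refine smooth_of_eventually fun r hr => ?_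
  obtain ⟨C, hC⟩ := h r hr
  refine ⟨|C|, ?_⟩
  filter_upwards [dominated hκ K, eventually_ge_atTop 3] with n hn hn3
  have hnp : (0 : ℝ) < n := by exact_mod_cast (by omega : 0 < n)
  have e1 : ((n : ℝ) ^ (-(1 / 3) : ℝ) * Real.exp (K * Real.log (Real.log n) ^ 2)) ^ r ≤
      (n : ℝ) ^ (-(κ * r)) := by
    calc ((n : ℝ) ^ (-(1 / 3) : ℝ) * Real.exp (K * Real.log (Real.log n) ^ 2)) ^ r
        ≤ ((n : ℝ) ^ (-κ)) ^ r := pow_le_pow_left₀ (by positivity) hn r
      _ = (n : ℝ) ^ (-(κ * r)) := by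
        rw [← Real.rpow_natCast, ← Real.rpow_mul hnp.le]
        congr 1
        ring
  calc |dd r L n| ≤ C * ((n : ℝ) ^ (-(1 / 3) : ℝ) * Real.exp (K * Real.log (Real.log n) ^ 2)) ^ r :=
        hC n hn3
    _ ≤ |C| * ((n : ℝ) ^ (-(1 / 3) : ℝ) * Real.exp (K * Real.log (Real.log n) ^ 2)) ^ r :=
        mul_le_mul_of_nonneg_right (le_abs_self C) (by positivity)
    _ ≤ |C| * (n : ℝ) ^ (-(κ * r)) := mul_le_mul_of_nonneg_left e1 (abs_nonneg C)

/-- the general transfer -/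
theorem transfer {L : ℕ → ℝ} (hL : ∀ κ : ℝ, κ < 1 / 3 → Smooth κ L) {ε : ℝ} (hε : 0 < ε)
    (hε' : ε ≤ 1 / 3) {S : Set ℕ} (hS : Meets S (1 / 3 - ε)) {κ : ℝ} (hκ : 1 / 3 - ε < κ)
    {φ : ℕ → ℝ} (hφ : Smooth κ φ) :
    (Tendsto (fun n => L n - φ n) (atTop ⊓ 𝓟 S) (𝓝 0) →
      Tendsto (fun n => L n - φ n) atTop (𝓝 0)) ∧
    ∀ D : ℝ, 0 ≤ D → ((fun n => L n - φ n) =O[atTop ⊓ 𝓟 S] fun n : ℕ => (n : ℝ) ^ (-D)) →
      ((fun n => L n - φ n) =O[atTop] fun n : ℕ => (n : ℝ) ^ (-D)) := by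
  set κ' : ℝ := min κ (1 / 3 - ε / 2) with hκ'
  have h1 : 1 / 3 - ε < κ' := lt_min hκ (by linarith)
  have h2 : κ' < 1 / 3 := (min_le_right _ _).trans_lt (by linarith)
  have hH : Smooth κ' (fun n => L n - φ n) := (hL κ' h2).sub (hφ.mono (min_le_left _ _))
  exact ⟨fun h => core_zero (by linarith) (by linarith) h1 hH hS h,
    fun D hD h => core_rate (by linarith) (by linarith) h1 hH hS hD h⟩

/-- the transfer for power laws: `L n = log (u n)`, `u n > 0` -/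
theorem transfer_pow {u : ℕ → ℝ} (hu : ∀ n, 0 < u n)
    (hL : ∀ κ : ℝ, κ < 1 / 3 → Smooth κ (fun n => Real.log (u n))) {ε : ℝ} (hε : 0 < ε)
    (hε' : ε ≤ 1 / 3) {S : Set ℕ} (hS : Meets S (1 / 3 - ε)) {A : ℝ} (hA : 0 < A) (g : ℝ) :
    (Tendsto (fun n : ℕ => u n / (A * (n : ℝ) ^ g)) (atTop ⊓ 𝓟 S) (𝓝 1) →
      Tendsto (fun n : ℕ => u n / (A * (n : ℝ) ^ g)) atTop (𝓝 1)) ∧
    ∀ D : ℝ, 0 < D →
      ((fun n : ℕ => u n / (A * (n : ℝ) ^ g) - 1) =O[atTop ⊓ 𝓟 S] fun n : ℕ => (n : ℝ) ^ (-D)) →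
      ((fun n : ℕ => u n / (A * (n : ℝ) ^ g) - 1) =O[atTop] fun n : ℕ => (n : ℝ) ^ (-D)) := by
  have hT := transfer hL hε hε' hS (show 1 / 3 - ε < 1 by linarith)
    (smooth_log (Real.log A) g)
  have hpos : ∀ᶠ n : ℕ in atTop, 0 < u n / (A * (n : ℝ) ^ g) := by
    filter_upwards [eventually_ge_atTop 1] with n hn
    have : (0 : ℝ) < n := by exact_mod_cast hn
    have := hu n
    positivity
  have hlog : ∀ᶠ n : ℕ in atTop, Real.log (u n / (A * (n : ℝ) ^ g)) =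
      Real.log (u n) - (Real.log A + g * Real.log n) := by
    filter_upwards [eventually_ge_atTop 1] with n hn
    have hn0 : (0 : ℝ) < n := by exact_mod_cast hn
    rw [Real.log_div (hu n).ne' (by positivity), Real.log_mul hA.ne' (by positivity),
      Real.log_rpow hn0]
  have hle : (atTop ⊓ 𝓟 S : Filter ℕ) ≤ atTop := inf_le_left
  refine ⟨fun h => ?_, fun D hD h => ?_⟩
  · have h1 : Tendsto (fun n : ℕ => Real.log (u n / (A * (n : ℝ) ^ g))) (atTop ⊓ 𝓟 S) (𝓝 0) := by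
      have := (Real.continuousAt_log one_ne_zero).tendsto.comp h
      rw [Real.log_one] at this
      exact this
    have h2 := hT.1 (h1.congr' (hlog.filter_mono hle))
    have h3 : Tendsto (fun n : ℕ => Real.log (u n / (A * (n : ℝ) ^ g))) atTop (𝓝 0) :=
      h2.congr' (hlog.mono fun n hn => hn.symm)
    have h4 := (Real.continuous_exp.tendsto 0).comp h3
    rw [Real.exp_zero] at h4
    refine h4.congr' ?_
    filter_upwards [hpos] with n hn
    simp only [Function.comp]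
    exact Real.exp_log hn
  · have hv : Tendsto (fun n : ℕ => (n : ℝ) ^ (-D)) atTop (𝓝 0) :=
      (tendsto_rpow_neg_atTop hD).comp (tendsto_natCast_atTop_atTop (R := ℝ))
    have h1 := log_of_ratio (hv.mono_left hle) h
    have h2 := hT.2 D hD.le (h1.congr' (hlog.filter_mono hle) (EventuallyEq.refl _ _))
    have h3 := h2.congr' (hlog.mono fun n hn => hn.symm) (EventuallyEq.refl _ _)
    exact ratio_of_log hpos hv h3

end Pool.Agent.J4H67.SL
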