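import Mathlib

/-!
A function on the integers whose differences of order `r` are small and which is small at `r` well
spaced integers is small.
-/

set_option autoImplicit false

namespace Pool.Agent.J4H67.SL

open Finset Polynomial

/-- Newton's formula with remainder. -/
theorem newton (r : ℕ) : ∀ (f : ℕ → ℝ) (J : ℕ) (η : ℝ),
    (∀ m, m + r ≤ J → |(fwdDiff 1)^[r] f m| ≤ η) → ∀ j ≤ J,
    |f j - ∑ i ∈ range r, (j.choose i : ℝ) * ((fwdDiff 1)^[i] f 0)| ≤ (j.choose r : ℝ) * η := by
  induction r with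
  | zero =>
    intro f J η h j hj
    simpa using h j (by simpa using hj)
  | succ r ih =>
    intro f J η h j
    induction j with
    | zero =>
      intro _
      rw [sum_range_succ']
      simp
    | succ j ihj =>
      intro hj
      have h1 := ihj (by omega)
      have h2 := ih (fwdDiff 1 f) (J - 1) η (fun m hm => by
        have := h m (by omega)
        rwa [Function.iterate_succ_apply] at this) j (by omega)
      have e : f (j + 1) - ∑ i ∈ range (r + 1), ((j + 1).choose i : ℝ) * ((fwdDiff 1)^[i] f 0) =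
          (f j - ∑ i ∈ range (r + 1), (j.choose i : ℝ) * ((fwdDiff 1)^[i] f 0)) +
          ((fwdDiff 1 f) j - ∑ i ∈ range r, (j.choose i : ℝ) *
            ((fwdDiff 1)^[i] (fwdDiff 1 f) 0)) := by
        rw [sum_range_succ', sum_range_succ' _ r]
        have e1 : ∀ i, (((j + 1).choose (i + 1) : ℕ) : ℝ) = (j.choose i : ℝ) + (j.choose (i + 1) : ℝ) := by
          intro i
          rw [Nat.choose_succ_succ]
          push_cast
          ring
        simp only [e1, Function.iterate_succ_apply, Nat.choose_zero_right, add_mul, sum_add_distrib]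
        simp only [fwdDiff]
        ring
      rw [e]
      have e2 : (((j + 1).choose (r + 1) : ℕ) : ℝ) = (j.choose r : ℝ) + (j.choose (r + 1) : ℝ) := by
        rw [Nat.choose_succ_succ]
        push_cast
        ring
      rw [e2, add_mul]
      refine (abs_add_le _ _).trans ?_
      linarith

/-- Interpolation at `r` well spaced points. -/
theorem lag (r : ℕ) (P : ℝ[X]) (hdeg : P.degree < r) (v : ℕ → ℝ) (g : ℝ) (hg : 0 < g)
    (hv : ∀ i < r, ((i : ℝ) + 1) * g ≤ v i ∧ v i ≤ ((i : ℝ) + 1) * g + g / 2) (δ : ℝ)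
    (hδ : ∀ i < r, |P.eval (v i)| ≤ δ) :
    |P.eval 0| ≤ r * (2 * ((r : ℝ) + 1)) ^ r * δ := by
  have hsep : ∀ i < r, ∀ j < r, i ≠ j → g / 2 ≤ |v i - v j| := by
    have key : ∀ i < r, ∀ j < r, i < j → g / 2 ≤ |v i - v j| := by
      intro i hi j hj hij
      obtain ⟨-, h1⟩ := hv i hi
      obtain ⟨h2, -⟩ := hv j hj
      have h3 : ((i : ℝ) + 1) ≤ j := by exact_mod_cast hij
      have h4 : g / 2 ≤ v j - v i := by nlinarith
      rw [abs_sub_comm]
      exact h4.trans (le_abs_self _)
    intro i hi j hj hij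
    rcases lt_or_gt_of_ne hij with h | h
    · exact key i hi j hj h
    · rw [abs_sub_comm]
      exact key j hj i hi h
  have hinj : Set.InjOn v (range r : Finset ℕ) := by
    intro i hi j hj hij
    by_contra hne
    have := hsep i (by simpa using hi) j (by simpa using hj) hne
    rw [hij, sub_self, abs_zero] at this
    linarith
  have hd : P.degree < ((range r).card : ℕ) := by simpa using hdeg
  have e := Lagrange.eq_interpolate hinj hd
  have e2 : P.eval 0 = ∑ i ∈ range r, P.eval (v i) *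
      ∏ j ∈ (range r).erase i, ((v i - v j)⁻¹ * (0 - v j)) := by
    conv_lhs => rw [e]
    rw [Lagrange.interpolate_apply, eval_finsetSum]
    refine sum_congr rfl fun i _ => ?_
    rw [eval_mul, eval_C, Lagrange.basis, eval_prod]
    congr 1
    refine prod_congr rfl fun j _ => ?_
    rw [Lagrange.basisDivisor, eval_mul, eval_C, eval_sub, eval_X, eval_C]
  rw [e2]
  refine (abs_sum_le_sum_abs _ _).trans ?_
  have hb : (1 : ℝ) ≤ 2 * ((r : ℝ) + 1) := by
    have : (0 : ℝ) ≤ r := Nat.cast_nonneg r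
    linarith
  have hterm : ∀ i ∈ range r, |P.eval (v i) * ∏ j ∈ (range r).erase i, ((v i - v j)⁻¹ * (0 - v j))|
      ≤ (2 * ((r : ℝ) + 1)) ^ r * δ := by
    intro i hi
    have hi' : i < r := by simpa using hi
    rw [abs_mul, abs_prod, mul_comm]
    refine mul_le_mul ?_ (hδ i hi') (abs_nonneg _) (by positivity)
    have : ∏ j ∈ (range r).erase i, |(v i - v j)⁻¹ * (0 - v j)| ≤
        ∏ j ∈ (range r).erase i, (2 * ((r : ℝ) + 1)) := by
      refine prod_le_prod (fun _ _ => abs_nonneg _) fun j hj => ?_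
      have hj' : j < r := by simpa using (mem_erase.1 hj).2
      have hne : i ≠ j := fun h => (mem_erase.1 hj).1 h.symm
      have h1 := hsep i hi' j hj' hne
      obtain ⟨h2, h3⟩ := hv j hj'
      have h4 : ((j : ℝ) + 1) ≤ r := by exact_mod_cast hj'
      have h5 : |0 - v j| ≤ ((r : ℝ) + 1) * g := by
        rw [zero_sub, abs_neg, abs_of_nonneg (by nlinarith [Nat.cast_nonneg (α := ℝ) j])]
        nlinarith
      rw [abs_mul, abs_inv, inv_mul_le_iff₀ (by linarith)]
      nlinarith [Nat.cast_nonneg (α := ℝ) r]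
    refine this.trans ?_
    rw [prod_const]
    refine pow_le_pow_right₀ hb ?_
    exact (card_erase_le).trans (by simp)
  refine (sum_le_sum hterm).trans ?_
  rw [sum_const, card_range, nsmul_eq_mul]
  exact le_of_eq (by ring)

/-- small differences, small at well spaced places: small. -/
theorem small (r : ℕ) (hr : 1 ≤ r) (h : ℕ → ℝ) (J : ℕ) (η δ : ℝ) (hη : 0 ≤ η)
    (hh : ∀ m, m + r ≤ J → |(fwdDiff 1)^[r] h m| ≤ η) (g : ℝ) (hg : 0 < g) (t : ℕ → ℕ)
    (ht : ∀ i < r, ((i : ℝ) + 1) * g ≤ t i ∧ (t i : ℝ) ≤ ((i : ℝ) + 1) * g + g / 2)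
    (htJ : ∀ i < r, t i ≤ J) (hδ : ∀ i < r, |h (t i)| ≤ δ) :
    |h 0| ≤ r * (2 * ((r : ℝ) + 1)) ^ r * (δ + (J : ℝ) ^ r * η) := by
  set P : ℝ[X] := ∑ i ∈ range r, C (((fwdDiff 1)^[i] h 0) / (i.factorial : ℝ)) * descPochhammer ℝ i
    with hP
  have hPe : ∀ j : ℕ, P.eval (j : ℝ) =
      ∑ i ∈ range r, (j.choose i : ℝ) * ((fwdDiff 1)^[i] h 0) := by
    intro j
    rw [hP, eval_finsetSum]
    refine sum_congr rfl fun i _ => ?_
    rw [eval_mul, eval_C, descPochhammer_eval_eq_descFactorial,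
      Nat.descFactorial_eq_factorial_mul_choose]
    push_cast
    have : (i.factorial : ℝ) ≠ 0 := by exact_mod_cast i.factorial_ne_zero
    field_simp
  have hdeg : P.degree < r := by
    rw [hP]
    refine mem_degreeLT.1 (Submodule.sum_mem _ fun i hi => ?_)
    rw [← smul_eq_C_mul]
    refine Submodule.smul_mem _ _ (mem_degreeLT.2 ?_)
    rw [degree_eq_natDegree (by
      intro h0
      have := descPochhammer_natDegree (R := ℝ) i
      have h1 : (descPochhammer ℝ i).leadingCoeff = 1 := monic_descPochhammer ℝ i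
      rw [h0] at h1
      simp at h1), descPochhammer_natDegree]
    exact_mod_cast (mem_range.1 hi)
  have hN := newton r h J η hh
  have h0 : h 0 = P.eval 0 := by
    have := hN 0 (Nat.zero_le _)
    rw [← hPe, Nat.choose_eq_zero_of_lt (by omega)] at this
    simp only [Nat.cast_zero, zero_mul, abs_nonpos_iff, sub_eq_zero] at this
    exact this
  rw [h0]
  refine lag r P hdeg (fun i => (t i : ℝ)) g hg ht _ fun i hi => ?_
  have h1 := hN (t i) (htJ i hi)
  rw [← hPe] at h1
  have h2 : ((t i).choose r : ℝ) ≤ (J : ℝ) ^ r := by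
    have h3 : (t i).choose r ≤ (t i) ^ r := Nat.choose_le_pow _ _
    have h4 : (t i) ^ r ≤ J ^ r := Nat.pow_le_pow_left (htJ i hi) r
    exact_mod_cast h3.trans h4
  have h3 : |P.eval (t i : ℝ)| ≤ |h (t i)| + |h (t i) - P.eval (t i : ℝ)| := by
    have : P.eval (t i : ℝ) = h (t i) - (h (t i) - P.eval (t i : ℝ)) := by ring
    calc |P.eval (t i : ℝ)| = |h (t i) - (h (t i) - P.eval (t i : ℝ))| := by rw [← this]
      _ ≤ _ := abs_sub _ _
  have h4 := hδ i hi
  have h5 : ((t i).choose r : ℝ) * η ≤ (J : ℝ) ^ r * η := mul_le_mul_of_nonneg_right h2 hη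
  show |P.eval (t i : ℝ)| ≤ _
  linarith

/-- the difference of order `r` with step `2`. -/
noncomputable def dd (r : ℕ) (H : ℕ → ℝ) (n : ℕ) : ℝ :=
  ∑ i ∈ range (r + 1), (-1 : ℝ) ^ i * (r.choose i : ℝ) * H (n + 2 * i)

theorem dd_abs (r : ℕ) (H : ℕ → ℝ) (n m : ℕ) :
    |(fwdDiff 1)^[r] (fun j => H (n + 2 * j)) m| = |dd r H (n + 2 * m)| := by
  rw [fwdDiff_iter_eq_sum_shift, dd]
  have : ∑ k ∈ range (r + 1), ((-1 : ℤ) ^ (r - k) * r.choose k) • H (n + 2 * (m + k • 1)) =
      (-1 : ℝ) ^ r * ∑ i ∈ range (r + 1), (-1 : ℝ) ^ i * (r.choose i : ℝ) * H (n + 2 * m + 2 * i) := by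
    rw [mul_sum]
    refine sum_congr rfl fun k hk => ?_
    have hk' : k ≤ r := by simpa [Nat.lt_succ_iff] using hk
    rw [zsmul_eq_mul]
    have e1 : n + 2 * (m + k • 1) = n + 2 * m + 2 * k := by simp; ring
    rw [e1]
    push_cast
    have e2 : (-1 : ℝ) ^ (r - k) = (-1 : ℝ) ^ r * (-1 : ℝ) ^ k := by
      have : (-1 : ℝ) ^ r = (-1 : ℝ) ^ (r - k) * (-1 : ℝ) ^ k := by
        rw [← pow_add, Nat.sub_add_cancel hk']
      rw [this, mul_assoc, ← pow_add, ← two_mul, pow_mul]
      simp
    rw [e2]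
    ring
  rw [this, abs_mul, abs_pow, abs_neg, abs_one, one_pow, one_mul]

end Pool.Agent.J4H67.SL
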