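import Pool.Agent.J4H67.SL.Main

/-!
The transfer of asymptotic laws from sparse sets, for differences with step `1`.
-/

set_option autoImplicit false

namespace Pool.Agent.J4H67.SL

open Filter Topology Finset

/-- the difference of order `r` with step `1`. -/
noncomputable def d1 (r : ℕ) (H : ℕ → ℝ) (n : ℕ) : ℝ :=
  ∑ i ∈ range (r + 1), (-1 : ℝ) ^ i * (r.choose i : ℝ) * H (n + i)

/-- differences of order `r` with step `1` are `O(n ^ (-κ r))` -/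
def Smooth1 (κ : ℝ) (φ : ℕ → ℝ) : Prop :=
  ∀ r : ℕ, 1 ≤ r → ∃ C : ℝ, ∀ n : ℕ, 1 ≤ n → |d1 r φ n| ≤ C * (n : ℝ) ^ (-(κ * r))

/-- `S` meets every window `[n, n + n ^ ρ]`, `n` large. -/
def Meets1 (S : Set ℕ) (ρ : ℝ) : Prop :=
  ∀ᶠ n : ℕ in atTop, ∃ s ∈ S, n ≤ s ∧ (s : ℝ) ≤ n + (n : ℝ) ^ ρ

theorem dd_half (r : ℕ) (H : ℕ → ℝ) (m : ℕ) : dd r (fun n => H (n / 2)) m = d1 r H (m / 2) := by
  simp only [dd, d1]
  refine sum_congr rfl fun i _ => ?_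
  rw [show (m + 2 * i) / 2 = m / 2 + i by omega]

theorem rpow_half {x : ℝ} (hx : 0 ≤ x) {m : ℕ} (hm : 2 ≤ m) :
    ((m / 2 : ℕ) : ℝ) ^ (-x) ≤ 3 ^ x * (m : ℝ) ^ (-x) := by
  have h1 : (m : ℝ) / 3 ≤ ((m / 2 : ℕ) : ℝ) := by
    rw [div_le_iff₀ (by norm_num)]
    exact_mod_cast (by omega : m ≤ m / 2 * 3)
  have hm0 : (0 : ℝ) < m := by exact_mod_cast (by omega : 0 < m)
  calc ((m / 2 : ℕ) : ℝ) ^ (-x) ≤ ((m : ℝ) / 3) ^ (-x) :=
        Real.rpow_le_rpow_of_nonpos (by positivity) h1 (by linarith)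
    _ = 3 ^ x * (m : ℝ) ^ (-x) := by
      rw [div_eq_mul_inv, Real.mul_rpow hm0.le (by norm_num), Real.inv_rpow (by norm_num),
        Real.rpow_neg (by norm_num : (0 : ℝ) ≤ 3), inv_inv, mul_comm]

theorem Smooth1.double {κ : ℝ} (hκ : 0 ≤ κ) {H : ℕ → ℝ} (h : Smooth1 κ H) :
    Smooth κ (fun n => H (n / 2)) := by
  refine smooth_of_eventually fun r hr => ?_
  obtain ⟨C, hC⟩ := h r hr
  refine ⟨|C| * 3 ^ (κ * r), ?_⟩
  filter_upwards [eventually_ge_atTop 2] with m hm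
  rw [dd_half]
  calc |d1 r H (m / 2)| ≤ C * ((m / 2 : ℕ) : ℝ) ^ (-(κ * r)) := hC _ (by omega)
    _ ≤ |C| * ((m / 2 : ℕ) : ℝ) ^ (-(κ * r)) :=
        mul_le_mul_of_nonneg_right (le_abs_self C) (by positivity)
    _ ≤ |C| * (3 ^ (κ * r) * (m : ℝ) ^ (-(κ * r))) :=
        mul_le_mul_of_nonneg_left (rpow_half (by positivity) hm) (abs_nonneg C)
    _ = |C| * 3 ^ (κ * r) * (m : ℝ) ^ (-(κ * r)) := by ring

theorem Meets1.double {S : Set ℕ} {ρ ρ' : ℝ} (hρ : 0 ≤ ρ) (hρ' : ρ < ρ') (h : Meets1 S ρ) :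
    Meets {s | s / 2 ∈ S} ρ' := by
  obtain ⟨N, hN⟩ := eventually_atTop.1 h
  have h2 : Tendsto (fun n : ℕ => (n : ℝ) ^ (ρ' - ρ)) atTop atTop :=
    (tendsto_rpow_atTop (by linarith)).comp (tendsto_natCast_atTop_atTop (R := ℝ))
  filter_upwards [eventually_ge_atTop (2 * N + 2), h2.eventually_ge_atTop 2] with m hm hm2
  obtain ⟨s, hs, h3, h4⟩ := hN (m / 2) (by omega)
  have hm0 : (0 : ℝ) < m := by exact_mod_cast (by omega : 0 < m)
  refine ⟨2 * s + m % 2, ?_, by omega, ?_, by omega⟩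
  · show (2 * s + m % 2) / 2 ∈ S
    rw [show (2 * s + m % 2) / 2 = s by omega]
    exact hs
  · have e1 : ((m / 2 : ℕ) : ℝ) ^ ρ ≤ (m : ℝ) ^ ρ :=
      Real.rpow_le_rpow (Nat.cast_nonneg _) (by exact_mod_cast Nat.div_le_self m 2) hρ
    have e2 : 2 * (m : ℝ) ^ ρ ≤ (m : ℝ) ^ ρ' := by
      calc 2 * (m : ℝ) ^ ρ ≤ (m : ℝ) ^ (ρ' - ρ) * (m : ℝ) ^ ρ :=
            mul_le_mul_of_nonneg_right hm2 (by positivity)
        _ = (m : ℝ) ^ ρ' := by
          rw [← Real.rpow_add hm0]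
          congr 1
          ring
    have e3 : (m : ℝ) = 2 * ((m / 2 : ℕ) : ℝ) + ((m % 2 : ℕ) : ℝ) := by
      exact_mod_cast (Nat.div_add_mod m 2).symm
    push_cast
    push_cast at e3
    linarith

theorem tendsto_half (S : Set ℕ) :
    Tendsto (fun m : ℕ => m / 2) (atTop ⊓ 𝓟 {s | s / 2 ∈ S}) (atTop ⊓ 𝓟 S) := by
  refine tendsto_inf.2 ⟨?_, ?_⟩
  · exact (Nat.tendsto_div_const_atTop (by norm_num)).mono_left inf_le_left
  · rw [tendsto_principal]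
    exact eventually_inf_principal.2 (Eventually.of_forall fun m hm => hm)

theorem tendsto_two : Tendsto (fun n : ℕ => 2 * n) atTop atTop :=
  tendsto_id.const_mul_atTop' (by norm_num)

theorem core_zero1 {κ ρ : ℝ} (hρ0 : 0 ≤ ρ) (hκ1 : κ ≤ 1) (hκρ : ρ < κ) {H : ℕ → ℝ}
    (hH : Smooth1 κ H) {S : Set ℕ} (hS : Meets1 S ρ) (h0 : Tendsto H (atTop ⊓ 𝓟 S) (𝓝 0)) :
    Tendsto H atTop (𝓝 0) := by
  have h1 : ρ < (ρ + κ) / 2 := by linarith
  have h2 := core_zero (ρ := (ρ + κ) / 2) (by linarith) (by linarith) (by linarith)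
    (hH.double (by linarith)) (hS.double hρ0 h1) (h0.comp (tendsto_half S))
  have h3 := h2.comp tendsto_two
  refine h3.congr fun n => ?_
  simp only [Function.comp]
  rw [show 2 * n / 2 = n by omega]

theorem core_rate1 {κ ρ : ℝ} (hρ0 : 0 ≤ ρ) (hκ1 : κ ≤ 1) (hκρ : ρ < κ) {H : ℕ → ℝ}
    (hH : Smooth1 κ H) {S : Set ℕ} (hS : Meets1 S ρ) {D : ℝ} (hD : 0 ≤ D)
    (h0 : H =O[atTop ⊓ 𝓟 S] fun n : ℕ => (n : ℝ) ^ (-D)) :
    H =O[atTop] fun n : ℕ => (n : ℝ) ^ (-D) := by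
  have h1 : ρ < (ρ + κ) / 2 := by linarith
  have hh : (fun m : ℕ => ((m / 2 : ℕ) : ℝ) ^ (-D)) =O[atTop ⊓ 𝓟 {s | s / 2 ∈ S}]
      fun m : ℕ => (m : ℝ) ^ (-D) := by
    refine Asymptotics.IsBigO.mono ?_ inf_le_left
    refine Asymptotics.IsBigO.of_bound (3 ^ D) ?_
    filter_upwards [eventually_ge_atTop 2] with m hm
    rw [Real.norm_of_nonneg (by positivity), Real.norm_of_nonneg (by positivity)]
    exact rpow_half hD hm
  have h2 := core_rate (ρ := (ρ + κ) / 2) (by linarith) (by linarith) (by linarith)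
    (hH.double (by linarith)) (hS.double hρ0 h1) hD
    ((h0.comp_tendsto (tendsto_half S)).trans hh)
  have h3 := h2.comp_tendsto tendsto_two
  have e1 : (fun n : ℕ => H (2 * n / 2)) = H := by
    funext n
    rw [show 2 * n / 2 = n by omega]
  have h4 : H =O[atTop] fun n : ℕ => ((2 * n : ℕ) : ℝ) ^ (-D) := by
    have : ((fun n => H (n / 2)) ∘ fun n : ℕ => 2 * n) = H := e1
    rw [this] at h3
    exact h3
  refine h4.trans (Asymptotics.IsBigO.of_bound 1 ?_)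
  filter_upwards [eventually_ge_atTop 1] with n hn
  have hn0 : (0 : ℝ) < n := by exact_mod_cast hn
  rw [Real.norm_of_nonneg (by positivity), Real.norm_of_nonneg (by positivity), one_mul]
  refine Real.rpow_le_rpow_of_nonpos hn0 ?_ (by linarith)
  push_cast
  linarith

theorem d1_sub (r : ℕ) (f g : ℕ → ℝ) (n : ℕ) : d1 r (fun n => f n - g n) n = d1 r f n - d1 r g n := by
  simp only [d1]
  rw [← sum_sub_distrib]
  refine sum_congr rfl fun i _ => ?_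
  ring

theorem Smooth1.sub {κ : ℝ} {f g : ℕ → ℝ} (hf : Smooth1 κ f) (hg : Smooth1 κ g) :
    Smooth1 κ (fun n => f n - g n) := by
  intro r hr
  obtain ⟨A, hA⟩ := hf r hr
  obtain ⟨B, hB⟩ := hg r hr
  refine ⟨A + B, fun n hn => ?_⟩
  rw [d1_sub]
  calc |d1 r f n - d1 r g n| ≤ |d1 r f n| + |d1 r g n| := abs_sub _ _
    _ ≤ A * (n : ℝ) ^ (-(κ * r)) + B * (n : ℝ) ^ (-(κ * r)) := add_le_add (hA n hn) (hB n hn)
    _ = (A + B) * (n : ℝ) ^ (-(κ * r)) := by ring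

theorem Smooth1.mono {κ κ' : ℝ} (h : κ' ≤ κ) {f : ℕ → ℝ} (hf : Smooth1 κ f) : Smooth1 κ' f := by
  intro r hr
  obtain ⟨A, hA⟩ := hf r hr
  refine ⟨|A|, fun n hn => ?_⟩
  have hn1 : (1 : ℝ) ≤ n := by exact_mod_cast hn
  calc |d1 r f n| ≤ A * (n : ℝ) ^ (-(κ * r)) := hA n hn
    _ ≤ |A| * (n : ℝ) ^ (-(κ * r)) := mul_le_mul_of_nonneg_right (le_abs_self A) (by positivity)
    _ ≤ |A| * (n : ℝ) ^ (-(κ' * r)) := by
      refine mul_le_mul_of_nonneg_left (Real.rpow_le_rpow_of_exponent_le hn1 ?_) (abs_nonneg A)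
      have : κ' * r ≤ κ * r := mul_le_mul_of_nonneg_right h (Nat.cast_nonneg r)
      linarith

theorem smooth1_of_eventually {κ : ℝ} {f : ℕ → ℝ}
    (h : ∀ r : ℕ, 1 ≤ r → ∃ C : ℝ, ∀ᶠ n : ℕ in atTop, |d1 r f n| ≤ C * (n : ℝ) ^ (-(κ * r))) :
    Smooth1 κ f := by
  intro r hr
  obtain ⟨C, hC⟩ := h r hr
  obtain ⟨N, hN⟩ := eventually_atTop.1 hC
  refine ⟨|C| + ∑ m ∈ range N, |d1 r f m| * (m : ℝ) ^ (κ * r), fun n hn => ?_⟩
  have hn0 : (0 : ℝ) < n := by exact_mod_cast hn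
  have hs : 0 ≤ ∑ m ∈ range N, |d1 r f m| * (m : ℝ) ^ (κ * r) :=
    sum_nonneg fun m _ => by positivity
  rcases lt_or_ge n N with h1 | h1
  · have h2 : |d1 r f n| * (n : ℝ) ^ (κ * r) ≤ ∑ m ∈ range N, |d1 r f m| * (m : ℝ) ^ (κ * r) :=
      single_le_sum (f := fun m : ℕ => |d1 r f m| * (m : ℝ) ^ (κ * r))
        (fun m _ => by positivity) (mem_range.2 h1)
    calc |d1 r f n| = |d1 r f n| * (n : ℝ) ^ (κ * r) * (n : ℝ) ^ (-(κ * r)) := by
          rw [mul_assoc, ← Real.rpow_add hn0]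
          simp
      _ ≤ (|C| + ∑ m ∈ range N, |d1 r f m| * (m : ℝ) ^ (κ * r)) * (n : ℝ) ^ (-(κ * r)) := by
          refine mul_le_mul_of_nonneg_right ?_ (by positivity)
          linarith [abs_nonneg C]
  · calc |d1 r f n| ≤ C * (n : ℝ) ^ (-(κ * r)) := hN n h1
      _ ≤ (|C| + ∑ m ∈ range N, |d1 r f m| * (m : ℝ) ^ (κ * r)) * (n : ℝ) ^ (-(κ * r)) := by
          refine mul_le_mul_of_nonneg_right ?_ (by positivity)
          linarith [le_abs_self C]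

theorem smooth1_log (a b : ℝ) : Smooth1 1 (fun n => a + b * Real.log n) := by
  intro r hr
  obtain ⟨C, hC⟩ := smooth_log (a - b * Real.log 2) b r hr
  refine ⟨|C|, fun n hn => ?_⟩
  have hn0 : (0 : ℝ) < n := by exact_mod_cast hn
  have e : d1 r (fun n => a + b * Real.log n) n =
      dd r (fun n => a - b * Real.log 2 + b * Real.log n) (2 * n) := by
    simp only [d1, dd]
    refine sum_congr rfl fun i _ => ?_
    have : Real.log ((2 * n + 2 * i : ℕ) : ℝ) = Real.log 2 + Real.log ((n + i : ℕ) : ℝ) := by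
      rw [← Real.log_mul (by norm_num) (by
        have : (0 : ℝ) < ((n + i : ℕ) : ℝ) := by exact_mod_cast (by omega : 0 < n + i)
        exact this.ne')]
      congr 1
      push_cast
      ring
    rw [this]
    ring
  rw [e]
  calc |dd r (fun n => a - b * Real.log 2 + b * Real.log n) (2 * n)|
      ≤ C * ((2 * n : ℕ) : ℝ) ^ (-((1 : ℝ) * r)) := hC _ (by omega)
    _ ≤ |C| * ((2 * n : ℕ) : ℝ) ^ (-((1 : ℝ) * r)) :=
        mul_le_mul_of_nonneg_right (le_abs_self C) (by positivity)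
    _ ≤ |C| * (n : ℝ) ^ (-((1 : ℝ) * r)) := by
      refine mul_le_mul_of_nonneg_left (Real.rpow_le_rpow_of_nonpos hn0 ?_ ?_) (abs_nonneg C)
      · push_cast
        linarith
      · have : (0 : ℝ) ≤ r := Nat.cast_nonneg r
        linarith

theorem dominated1 {κ : ℝ} (hκ : κ < 1 / 2) :
    ∀ᶠ n : ℕ in atTop, Real.log n / Real.sqrt n ≤ (n : ℝ) ^ (-κ) := by
  have h1 : Tendsto (fun n : ℕ => (n : ℝ)) atTop atTop := tendsto_natCast_atTop_atTop (R := ℝ)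
  have h2 := ((isLittleO_log_rpow_atTop (show 0 < 1 / 2 - κ by linarith)).comp_tendsto h1).def
    (show (0 : ℝ) < 1 by norm_num)
  filter_upwards [h2, eventually_ge_atTop 1] with n hn hn1
  have hn0 : (0 : ℝ) < n := by exact_mod_cast hn1
  simp only [Function.comp, one_mul] at hn
  rw [Real.norm_of_nonneg (by positivity : (0 : ℝ) ≤ (n : ℝ) ^ (1 / 2 - κ))] at hn
  have h3 := (le_abs_self _).trans hn
  rw [div_le_iff₀ (Real.sqrt_pos.2 hn0), Real.sqrt_eq_rpow, ← Real.rpow_add hn0]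
  calc Real.log n ≤ (n : ℝ) ^ (1 / 2 - κ) := h3
    _ = (n : ℝ) ^ (-κ + 1 / 2) := by
      congr 1
      ring

theorem smooth1_of_half {L : ℕ → ℝ}
    (h : ∀ r : ℕ, 1 ≤ r → ∃ C : ℝ, ∀ n : ℕ, 2 ≤ n → |d1 r L n| ≤
      C * (Real.log n / Real.sqrt n) ^ r)
    {κ : ℝ} (hκ : κ < 1 / 2) : Smooth1 κ L := by
  refine smooth1_of_eventually fun r hr => ?_
  obtain ⟨C, hC⟩ := h r hr
  refine ⟨|C|, ?_⟩
  filter_upwards [dominated1 hκ, eventually_ge_atTop 2] with n hn hn3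
  have hnp : (1 : ℝ) ≤ n := by exact_mod_cast (by omega : 1 ≤ n)
  have hl : 0 ≤ Real.log n / Real.sqrt n := div_nonneg (Real.log_nonneg hnp) (Real.sqrt_nonneg _)
  have e1 : (Real.log n / Real.sqrt n) ^ r ≤ (n : ℝ) ^ (-(κ * r)) := by
    calc (Real.log n / Real.sqrt n) ^ r
        ≤ ((n : ℝ) ^ (-κ)) ^ r := pow_le_pow_left₀ hl hn r
      _ = (n : ℝ) ^ (-(κ * r)) := by
        rw [← Real.rpow_natCast, ← Real.rpow_mul (by linarith)]
        congr 1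
        ring
  calc |d1 r L n| ≤ C * (Real.log n / Real.sqrt n) ^ r := hC n hn3
    _ ≤ |C| * (Real.log n / Real.sqrt n) ^ r :=
        mul_le_mul_of_nonneg_right (le_abs_self C) (by positivity)
    _ ≤ |C| * (n : ℝ) ^ (-(κ * r)) := mul_le_mul_of_nonneg_left e1 (abs_nonneg C)

/-- the general transfer, step `1` -/
theorem transfer1 {κ₀ : ℝ} (hκ₀ : κ₀ ≤ 1) {L : ℕ → ℝ} (hL : ∀ κ : ℝ, κ < κ₀ → Smooth1 κ L) {ε : ℝ}
    (hε : 0 < ε) (hε' : ε ≤ κ₀) {S : Set ℕ} (hS : Meets1 S (κ₀ - ε)) {κ : ℝ} (hκ : κ₀ - ε < κ)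
    {φ : ℕ → ℝ} (hφ : Smooth1 κ φ) :
    (Tendsto (fun n => L n - φ n) (atTop ⊓ 𝓟 S) (𝓝 0) →
      Tendsto (fun n => L n - φ n) atTop (𝓝 0)) ∧
    ∀ D : ℝ, 0 ≤ D → ((fun n => L n - φ n) =O[atTop ⊓ 𝓟 S] fun n : ℕ => (n : ℝ) ^ (-D)) →
      ((fun n => L n - φ n) =O[atTop] fun n : ℕ => (n : ℝ) ^ (-D)) := by
  set κ' : ℝ := min κ (κ₀ - ε / 2) with hκ'
  have h1 : κ₀ - ε < κ' := lt_min hκ (by linarith)
  have h2 : κ' < κ₀ := (min_le_right _ _).trans_lt (by linarith)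
  have hH : Smooth1 κ' (fun n => L n - φ n) := (hL κ' h2).sub (hφ.mono (min_le_left _ _))
  exact ⟨fun h => core_zero1 (by linarith) (by linarith) h1 hH hS h,
    fun D hD h => core_rate1 (by linarith) (by linarith) h1 hH hS hD h⟩

/-- the transfer for power laws, step `1` -/
theorem transfer_pow1 {κ₀ : ℝ} (hκ₀ : κ₀ ≤ 1) {u : ℕ → ℝ} (hu : ∀ᶠ n in atTop, 0 < u n)
    (hL : ∀ κ : ℝ, κ < κ₀ → Smooth1 κ (fun n => Real.log (u n))) {ε : ℝ} (hε : 0 < ε)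
    (hε' : ε ≤ κ₀) {S : Set ℕ} (hS : Meets1 S (κ₀ - ε)) {A : ℝ} (hA : 0 < A) (g : ℝ) :
    (Tendsto (fun n : ℕ => u n / (A * (n : ℝ) ^ g)) (atTop ⊓ 𝓟 S) (𝓝 1) →
      Tendsto (fun n : ℕ => u n / (A * (n : ℝ) ^ g)) atTop (𝓝 1)) ∧
    ∀ D : ℝ, 0 < D →
      ((fun n : ℕ => u n / (A * (n : ℝ) ^ g) - 1) =O[atTop ⊓ 𝓟 S] fun n : ℕ => (n : ℝ) ^ (-D)) →
      ((fun n : ℕ => u n / (A * (n : ℝ) ^ g) - 1) =O[atTop] fun n : ℕ => (n : ℝ) ^ (-D)) := by
  have hT := transfer1 hκ₀ hL hε hε' hS (show κ₀ - ε < 1 by linarith)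
    (smooth1_log (Real.log A) g)
  have hpos : ∀ᶠ n : ℕ in atTop, 0 < u n / (A * (n : ℝ) ^ g) := by
    filter_upwards [eventually_ge_atTop 1, hu] with n hn hun
    have : (0 : ℝ) < n := by exact_mod_cast hn
    positivity
  have hlog : ∀ᶠ n : ℕ in atTop, Real.log (u n / (A * (n : ℝ) ^ g)) =
      Real.log (u n) - (Real.log A + g * Real.log n) := by
    filter_upwards [eventually_ge_atTop 1, hu] with n hn hun
    have hn0 : (0 : ℝ) < n := by exact_mod_cast hn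
    rw [Real.log_div hun.ne' (by positivity), Real.log_mul hA.ne' (by positivity),
      Real.log_rpow hn0]
  have hle : (atTop ⊓ 𝓟 S : Filter ℕ) ≤ atTop := inf_le_left
  refine ⟨fun h => ?_, fun D hD h => ?_⟩
  · have h1 : Tendsto (fun n : ℕ => Real.log (u n / (A * (n : ℝ) ^ g))) (atTop ⊓ 𝓟 S) (𝓝 0) := by
      have := (Real.continuousAt_log one_ne_zero).tendsto.comp h
      rw [Real.log_one] at this
      exact this
    have h2 := hT.1 (h1.congr' (hlog.filter_mono hle))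
    have h3 : Tendsto (fun n : ℕ => Real.log (u n / (A * (n : ℝ) ^ g))) atTop (𝓝 0) :=
      h2.congr' (hlog.mono fun n hn => hn.symm)
    have h4 := (Real.continuous_exp.tendsto 0).comp h3
    rw [Real.exp_zero] at h4
    refine h4.congr' ?_
    filter_upwards [hpos] with n hn
    simp only [Function.comp]
    exact Real.exp_log hn
  · have hv : Tendsto (fun n : ℕ => (n : ℝ) ^ (-D)) atTop (𝓝 0) :=
      (tendsto_rpow_neg_atTop hD).comp (tendsto_natCast_atTop_atTop (R := ℝ))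
    have h1 := log_of_ratio (hv.mono_left hle) h
    have h2 := hT.2 D hD.le (h1.congr' (hlog.filter_mono hle) (EventuallyEq.refl _ _))
    have h3 := h2.congr' (hlog.mono fun n hn => hn.symm) (EventuallyEq.refl _ _)
    exact ratio_of_log hpos hv h3

end Pool.Agent.J4H67.SL
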