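import Pool.Agent.J4H67.SL.Core

/-!
Power laws are smooth; passage between ratios and logarithms.
-/

set_option autoImplicit false

namespace Pool.Agent.J4H67.SL

open Finset Filter Topology

theorem dd_sub (r : ℕ) (f g : ℕ → ℝ) (n : ℕ) : dd r (fun n => f n - g n) n = dd r f n - dd r g n := by
  simp only [dd]
  rw [← sum_sub_distrib]
  refine sum_congr rfl fun i _ => ?_
  ring

theorem Smooth.sub {κ : ℝ} {f g : ℕ → ℝ} (hf : Smooth κ f) (hg : Smooth κ g) :
    Smooth κ (fun n => f n - g n) := by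
  intro r hr
  obtain ⟨A, hA⟩ := hf r hr
  obtain ⟨B, hB⟩ := hg r hr
  refine ⟨A + B, fun n hn => ?_⟩
  rw [dd_sub]
  have := abs_sub (dd r f n) (dd r g n)
  have h1 := hA n hn
  have h2 := hB n hn
  linarith

theorem Smooth.mono {κ κ' : ℝ} (h : κ' ≤ κ) {f : ℕ → ℝ} (hf : Smooth κ f) : Smooth κ' f := by
  intro r hr
  obtain ⟨A, hA⟩ := hf r hr
  refine ⟨|A|, fun n hn => ?_⟩
  have hn1 : (1 : ℝ) ≤ n := by exact_mod_cast hn
  calc |dd r f n| ≤ A * (n : ℝ) ^ (-(κ * r)) := hA n hn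
    _ ≤ |A| * (n : ℝ) ^ (-(κ * r)) := mul_le_mul_of_nonneg_right (le_abs_self A) (by positivity)
    _ ≤ |A| * (n : ℝ) ^ (-(κ' * r)) := by
      refine mul_le_mul_of_nonneg_left ?_ (abs_nonneg A)
      refine Real.rpow_le_rpow_of_exponent_le hn1 ?_
      have : κ' * (r : ℝ) ≤ κ * r := mul_le_mul_of_nonneg_right h (Nat.cast_nonneg r)
      linarith

/-- it is enough to have the bounds for large `n`. -/
theorem smooth_of_eventually {κ : ℝ} {f : ℕ → ℝ}
    (h : ∀ r : ℕ, 1 ≤ r → ∃ C : ℝ, ∀ᶠ n : ℕ in atTop, |dd r f n| ≤ C * (n : ℝ) ^ (-(κ * r))) :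
    Smooth κ f := by
  intro r hr
  obtain ⟨C, hC⟩ := h r hr
  obtain ⟨N, hN⟩ := eventually_atTop.1 hC
  refine ⟨|C| + ∑ m ∈ range N, |dd r f m| * (m : ℝ) ^ (κ * r), fun n hn => ?_⟩
  have hnp : (0 : ℝ) < n := by exact_mod_cast hn
  have hp : 0 < (n : ℝ) ^ (-(κ * r)) := Real.rpow_pos_of_pos hnp _
  have hs : 0 ≤ ∑ m ∈ range N, |dd r f m| * (m : ℝ) ^ (κ * r) :=
    sum_nonneg fun m _ => mul_nonneg (abs_nonneg _) (Real.rpow_nonneg (Nat.cast_nonneg m) _)
  rw [add_mul]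
  by_cases hnN : N ≤ n
  · have h1 := hN n hnN
    have h2 : C * (n : ℝ) ^ (-(κ * r)) ≤ |C| * (n : ℝ) ^ (-(κ * r)) :=
      mul_le_mul_of_nonneg_right (le_abs_self C) hp.le
    have := mul_nonneg hs hp.le
    linarith
  · have hmem : n ∈ range N := by simpa using not_le.1 hnN
    have h1 : |dd r f n| * (n : ℝ) ^ (κ * r) ≤ ∑ m ∈ range N, |dd r f m| * (m : ℝ) ^ (κ * r) :=
      single_le_sum (f := fun m : ℕ => |dd r f m| * (m : ℝ) ^ (κ * r))
        (fun m _ => mul_nonneg (abs_nonneg _) (Real.rpow_nonneg (Nat.cast_nonneg m) _)) hmem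
    have h2 : |dd r f n| = |dd r f n| * (n : ℝ) ^ (κ * r) * (n : ℝ) ^ (-(κ * r)) := by
      rw [mul_assoc, ← Real.rpow_add hnp]
      simp
    have h3 := mul_le_mul_of_nonneg_right h1 hp.le
    have := mul_nonneg (abs_nonneg C) hp.le
    rw [h2]
    linarith

/-- alternating sums of polynomials of small degree vanish. -/
theorem alt_poly (r : ℕ) (P : Polynomial ℝ) (hP : P.natDegree < r) :
    ∑ i ∈ range (r + 1), (-1 : ℝ) ^ i * (r.choose i : ℝ) * P.eval (i : ℝ) = 0 := by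
  have h := congrFun (Polynomial.fwdDiff_iter_eq_zero_of_degree_lt hP) 0
  rw [fwdDiff_iter_eq_sum_shift] at h
  have h2 : (-1 : ℝ) ^ r * ∑ i ∈ range (r + 1), (-1 : ℝ) ^ i * (r.choose i : ℝ) * P.eval (i : ℝ) = 0 := by
    rw [mul_sum]
    refine Eq.trans (sum_congr rfl fun k hk => ?_) h
    have hk' : k ≤ r := by simpa [Nat.lt_succ_iff] using hk
    rw [zsmul_eq_mul]
    push_cast
    have e2 : (-1 : ℝ) ^ (r - k) = (-1 : ℝ) ^ r * (-1 : ℝ) ^ k := by
      have : (-1 : ℝ) ^ r = (-1 : ℝ) ^ (r - k) * (-1 : ℝ) ^ k := by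
        rw [← pow_add, Nat.sub_add_cancel hk']
      rw [this, mul_assoc, ← pow_add, ← two_mul, pow_mul]
      simp
    rw [e2]
    simp
    ring
  rcases mul_eq_zero.1 h2 with h3 | h3
  · simp at h3
  · exact h3

theorem smooth_log (a b : ℝ) : Smooth 1 (fun n => a + b * Real.log n) := by
  refine smooth_of_eventually fun r hr => ⟨2 ^ r * (|b| * (2 * (2 * r) ^ r)), ?_⟩
  filter_upwards [eventually_ge_atTop (4 * r)] with n hn
  have hr' : (1 : ℝ) ≤ r := by exact_mod_cast hr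
  have hn4 : (4 : ℝ) * r ≤ n := by exact_mod_cast hn
  have hnp : (0 : ℝ) < n := by linarith
  set P : Polynomial ℝ := Polynomial.C (a + b * Real.log n) +
    ∑ k ∈ range (r - 1), Polynomial.C (-b * (-(2 / n)) ^ (k + 1) / (k + 1)) * Polynomial.X ^ (k + 1)
    with hPdef
  have hPe : ∀ i : ℕ, P.eval (i : ℝ) = a + b * Real.log n -
      b * ∑ k ∈ range (r - 1), (-(2 * (i : ℝ) / (n : ℝ))) ^ (k + 1) / (k + 1) := by
    intro i
    rw [hPdef, Polynomial.eval_add, Polynomial.eval_C, Polynomial.eval_finsetSum, sub_eq_add_neg,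
      ← neg_mul, mul_sum]
    congr 1
    refine sum_congr rfl fun k _ => ?_
    rw [Polynomial.eval_mul, Polynomial.eval_C, Polynomial.eval_pow, Polynomial.eval_X]
    have : (-(2 * (i : ℝ) / n)) ^ (k + 1) = (-(2 / n)) ^ (k + 1) * (i : ℝ) ^ (k + 1) := by
      rw [← mul_pow]
      congr 1
      ring
    rw [this]
    ring
  have hPd : P.natDegree < r := by
    refine lt_of_le_of_lt ?_ (show r - 1 < r by omega)
    rw [hPdef]
    refine Polynomial.natDegree_add_le_of_degree_le ((Polynomial.natDegree_C _).le.trans (Nat.zero_le _)) ?_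
    refine Polynomial.natDegree_sum_le_of_forall_le _ _ fun k hk => ?_
    refine (Polynomial.natDegree_C_mul_X_pow_le _ _).trans ?_
    have := mem_range.1 hk
    omega
  have hz := alt_poly r P hPd
  have herr : ∀ i ∈ range (r + 1), |(a + b * Real.log ((n + 2 * i : ℕ) : ℝ)) - P.eval (i : ℝ)| ≤
      |b| * (2 * (2 * r / n) ^ r) := by
    intro i hi
    have hir : (i : ℝ) ≤ r := by
      have : i ≤ r := by simpa [Nat.lt_succ_iff] using hi
      exact_mod_cast this
    have hi0 : (0 : ℝ) ≤ i := Nat.cast_nonneg i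
    rw [hPe]
    have hx : |(-(2 * (i : ℝ) / n))| ≤ 2 * r / n := by
      rw [abs_neg, abs_of_nonneg (by positivity)]
      gcongr
    have hx2 : 2 * (r : ℝ) / n ≤ 1 / 2 := by
      rw [div_le_div_iff₀ hnp (by norm_num)]
      linarith
    have h1 := Real.abs_log_sub_add_sum_range_le (x := -(2 * (i : ℝ) / n)) (by linarith) (r - 1)
    have e1 : Real.log ((n + 2 * i : ℕ) : ℝ) = Real.log n + Real.log (1 - -(2 * (i : ℝ) / n)) := by
      rw [← Real.log_mul hnp.ne' (by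
        have : 0 ≤ 2 * (i : ℝ) / n := by positivity
        linarith)]
      congr 1
      push_cast
      field_simp
      ring
    rw [e1]
    have e2 : a + b * (Real.log n + Real.log (1 - -(2 * (i : ℝ) / n))) - (a + b * Real.log n -
        b * ∑ k ∈ range (r - 1), (-(2 * (i : ℝ) / n)) ^ (k + 1) / (k + 1)) =
        b * (∑ k ∈ range (r - 1), (-(2 * (i : ℝ) / n)) ^ (k + 1) / (k + 1) +
          Real.log (1 - -(2 * (i : ℝ) / n))) := by ring
    rw [e2, abs_mul]
    refine mul_le_mul_of_nonneg_left ?_ (abs_nonneg b)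
    rw [show r - 1 + 1 = r by omega] at h1
    refine h1.trans ?_
    rw [div_le_iff₀ (by linarith)]
    have h2 : |(-(2 * (i : ℝ) / n))| ^ r ≤ (2 * r / n) ^ r := pow_le_pow_left₀ (abs_nonneg _) hx r
    have h3 : 0 ≤ (2 * (r : ℝ) / n) ^ r := by positivity
    nlinarith
  have hdd : dd r (fun n => a + b * Real.log n) n = ∑ i ∈ range (r + 1), (-1 : ℝ) ^ i *
      (r.choose i : ℝ) * ((a + b * Real.log ((n + 2 * i : ℕ) : ℝ)) - P.eval (i : ℝ)) := by
    simp only [mul_sub, sum_sub_distrib, hz, sub_zero]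
    rfl
  rw [hdd]
  refine (abs_sum_le_sum_abs _ _).trans ?_
  have hb : ∀ i ∈ range (r + 1), |(-1 : ℝ) ^ i * (r.choose i : ℝ) *
      ((a + b * Real.log ((n + 2 * i : ℕ) : ℝ)) - P.eval (i : ℝ))| ≤
      (r.choose i : ℝ) * (|b| * (2 * (2 * r / n) ^ r)) := by
    intro i hi
    rw [abs_mul, abs_mul, abs_pow, abs_neg, abs_one, one_pow, one_mul, Nat.abs_cast]
    exact mul_le_mul_of_nonneg_left (herr i hi) (Nat.cast_nonneg _)
  refine (sum_le_sum hb).trans ?_
  rw [← sum_mul]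
  have hch : ∑ i ∈ range (r + 1), (r.choose i : ℝ) = 2 ^ r := by
    exact_mod_cast Nat.sum_range_choose r
  rw [hch]
  refine le_of_eq ?_
  have : (n : ℝ) ^ (-((1 : ℝ) * r)) = ((n : ℝ) ^ r)⁻¹ := by
    rw [one_mul, Real.rpow_neg hnp.le, Real.rpow_natCast]
  rw [this, div_pow]
  ring

theorem log_of_ratio {F : Filter ℕ} {u v : ℕ → ℝ} (hv : Tendsto v F (𝓝 0))
    (h : (fun n => u n - 1) =O[F] v) : (fun n => Real.log (u n)) =O[F] v := by
  have h0 : Tendsto (fun n => u n - 1) F (𝓝 0) := h.trans_tendsto hv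
  refine Asymptotics.IsBigO.trans ?_ h
  refine Asymptotics.IsBigO.of_bound 2 ?_
  have h1 : ∀ᶠ n in F, |u n - 1| < 1 / 2 := by
    have := (Metric.tendsto_nhds.1 h0) (1 / 2) (by norm_num)
    simpa [Real.dist_eq] using this
  filter_upwards [h1] with n hn
  obtain ⟨h2, h3⟩ := abs_lt.1 hn
  have hu : 0 < u n := by linarith
  have h4 := Real.log_le_sub_one_of_pos hu
  have h5 := Real.one_sub_inv_le_log_of_pos hu
  rw [Real.norm_eq_abs, Real.norm_eq_abs]
  have h6 : |(u n)⁻¹| ≤ 2 := by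
    rw [abs_inv, abs_of_pos hu, inv_le_comm₀ hu (by norm_num)]
    linarith
  have h7 : 1 - (u n)⁻¹ = (u n - 1) * (u n)⁻¹ := by
    field_simp
  have h8 : |1 - (u n)⁻¹| ≤ 2 * |u n - 1| := by
    rw [h7, abs_mul, mul_comm]
    exact mul_le_mul_of_nonneg_right h6 (abs_nonneg _)
  rw [abs_le]
  constructor
  · have := neg_abs_le (1 - (u n)⁻¹)
    linarith
  · have := le_abs_self (u n - 1)
    have := abs_nonneg (u n - 1)
    linarith

theorem ratio_of_log {F : Filter ℕ} {u v : ℕ → ℝ} (hu : ∀ᶠ n in F, 0 < u n) (hv : Tendsto v F (𝓝 0))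
    (h : (fun n => Real.log (u n)) =O[F] v) : (fun n => u n - 1) =O[F] v := by
  have h0 : Tendsto (fun n => Real.log (u n)) F (𝓝 0) := h.trans_tendsto hv
  refine Asymptotics.IsBigO.trans ?_ h
  refine Asymptotics.IsBigO.of_bound 2 ?_
  have h1 : ∀ᶠ n in F, |Real.log (u n)| < 1 := by
    have := (Metric.tendsto_nhds.1 h0) 1 one_pos
    simpa [Real.dist_eq] using this
  filter_upwards [h1, hu] with n hn hun
  have h2 := Real.abs_exp_sub_one_le hn.le
  rw [Real.exp_log hun] at h2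
  simpa [Real.norm_eq_abs] using h2

end Pool.Agent.J4H67.SL
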