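import Pool.Agent.J4H67.SL.Gain

/-!
Differences of the logarithm, and the ratio method.
-/

set_option autoImplicit false

namespace Pool.Agent.J4H67.SL

open Filter Topology Finset

theorem all_of_bigO {H : ℕ → ℝ} {D : ℝ} (h : H =O[atTop] fun n : ℕ => (n : ℝ) ^ (-D)) :
    ∃ C : ℝ, ∀ n : ℕ, 1 ≤ n → |H n| ≤ C * (n : ℝ) ^ (-D) := by
  obtain ⟨C, hC⟩ := h.bound
  obtain ⟨N, hN⟩ := eventually_atTop.1 hC
  refine ⟨|C| + ∑ m ∈ range N, |H m| * (m : ℝ) ^ D, fun n hn => ?_⟩
  have hn0 : (0 : ℝ) < n := by exact_mod_cast hn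
  have hs : 0 ≤ ∑ m ∈ range N, |H m| * (m : ℝ) ^ D := sum_nonneg fun m _ => by positivity
  rcases lt_or_ge n N with h1 | h1
  · have h2 : |H n| * (n : ℝ) ^ D ≤ ∑ m ∈ range N, |H m| * (m : ℝ) ^ D :=
      single_le_sum (f := fun m : ℕ => |H m| * (m : ℝ) ^ D)
        (fun m _ => by positivity) (mem_range.2 h1)
    calc |H n| = |H n| * (n : ℝ) ^ D * (n : ℝ) ^ (-D) := by
          rw [mul_assoc, ← Real.rpow_add hn0]
          simp
      _ ≤ (|C| + ∑ m ∈ range N, |H m| * (m : ℝ) ^ D) * (n : ℝ) ^ (-D) := by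
          refine mul_le_mul_of_nonneg_right ?_ (by positivity)
          linarith [abs_nonneg C]
  · have h2 := hN n h1
    rw [Real.norm_eq_abs, Real.norm_of_nonneg (by positivity)] at h2
    refine h2.trans (mul_le_mul_of_nonneg_right ?_ (by positivity))
    linarith [le_abs_self C]

theorem diff_gain {L : ℕ → ℝ} (hL : ∀ κ : ℝ, κ < 1 / 3 → Smooth κ L) {ε : ℝ} (hε : 0 < ε)
    (hε' : ε ≤ 1 / 3) {S : Set ℕ} (hS : Meets S (1 / 3 - ε)) {φ : ℕ → ℝ}
    (hφ : Smooth (1 / 3) φ) {D : ℝ} (hD : 0 ≤ D)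
    (h : (fun n => L n - φ n) =O[atTop ⊓ 𝓟 S] fun n : ℕ => (n : ℝ) ^ (-D)) (j : ℕ) {δ : ℝ}
    (hδ : 0 < δ) :
    (fun n => dd j (fun m => L m - φ m) n) =O[atTop] fun n : ℕ => (n : ℝ) ^ (-D - j / 3 + δ) := by
  have hT := (transfer hL hε hε' hS (show 1 / 3 - ε < 1 / 3 by linarith) hφ).2 D hD h
  set η : ℝ := min (1 / 6) (δ / (j + 1)) with hη
  have hη0 : 0 < η := lt_min (by norm_num) (by positivity)
  have hη1 : η ≤ 1 / 6 := min_le_left _ _
  have hj : (j : ℝ) * η ≤ δ := by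
    have h1 : η ≤ δ / (j + 1) := min_le_right _ _
    rw [le_div_iff₀ (by positivity)] at h1
    nlinarith
  have hH : Smooth (1 / 3 - η / 2) (fun n => L n - φ n) :=
    (hL _ (by linarith)).sub (hφ.mono (by linarith))
  obtain ⟨C, hC⟩ := gain (κ' := 1 / 3 - η) (by linarith) (by linarith) j _ D hD hH (all_of_bigO hT)
  refine Asymptotics.IsBigO.of_bound |C| ?_
  filter_upwards [eventually_ge_atTop 1] with n hn
  have hn1 : (1 : ℝ) ≤ n := by exact_mod_cast hn
  rw [Real.norm_eq_abs, Real.norm_of_nonneg (by positivity)]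
  calc |dd j (fun m => L m - φ m) n| ≤ C * (n : ℝ) ^ (-(D + j * (1 / 3 - η))) := hC n hn
    _ ≤ |C| * (n : ℝ) ^ (-(D + j * (1 / 3 - η))) :=
        mul_le_mul_of_nonneg_right (le_abs_self C) (by positivity)
    _ ≤ |C| * (n : ℝ) ^ (-D - j / 3 + δ) := by
      refine mul_le_mul_of_nonneg_left (Real.rpow_le_rpow_of_exponent_le hn1 ?_) (abs_nonneg C)
      linarith

theorem ratio_lim {u : ℕ → ℝ} (hu : ∀ n, 0 < u n)
    (hL : ∀ κ : ℝ, κ < 1 / 3 → Smooth κ (fun n => Real.log (u n))) {ε : ℝ} (hε : 0 < ε)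
    (hε' : ε ≤ 1 / 3) {S : Set ℕ} (hS : Meets S (1 / 3 - ε)) {A : ℝ} (hA : 0 < A) (g : ℝ) {D : ℝ}
    (hD : 2 / 3 < D)
    (h : (fun n : ℕ => u n / (A * (n : ℝ) ^ g) - 1) =O[atTop ⊓ 𝓟 S] fun n : ℕ => (n : ℝ) ^ (-D)) :
    Tendsto (fun n : ℕ => (n : ℝ) * (u (n + 2) / u n - 1)) atTop (𝓝 (2 * g)) := by
  have hle : (atTop ⊓ 𝓟 S : Filter ℕ) ≤ atTop := inf_le_left
  have hv : Tendsto (fun n : ℕ => (n : ℝ) ^ (-D)) atTop (𝓝 0) :=
    (tendsto_rpow_neg_atTop (by linarith)).comp (tendsto_natCast_atTop_atTop (R := ℝ))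
  have hlog : ∀ᶠ n : ℕ in atTop, Real.log (u n / (A * (n : ℝ) ^ g)) =
      Real.log (u n) - (Real.log A + g * Real.log n) := by
    filter_upwards [eventually_ge_atTop 1] with n hn
    have hn0 : (0 : ℝ) < n := by exact_mod_cast hn
    rw [Real.log_div (hu n).ne' (by positivity), Real.log_mul hA.ne' (by positivity),
      Real.log_rpow hn0]
  have h1 := (log_of_ratio (hv.mono_left hle) h).congr' (hlog.filter_mono hle) (EventuallyEq.refl _ _)
  have h2 := diff_gain hL hε hε' hS ((smooth_log (Real.log A) g).mono (by norm_num))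
    (by linarith) h1 1 (δ := (D - 2 / 3) / 2) (by linarith)
  -- n times the difference tends to zero
  have h3 : Tendsto (fun n : ℕ => (n : ℝ) *
      dd 1 (fun m => Real.log (u m) - (Real.log A + g * Real.log m)) n) atTop (𝓝 0) := by
    have h4 : (fun n : ℕ => (n : ℝ) *
        dd 1 (fun m => Real.log (u m) - (Real.log A + g * Real.log m)) n) =O[atTop]
        fun n : ℕ => (n : ℝ) ^ (-(D / 2 - 1 / 3)) := by
      refine ((Asymptotics.isBigO_refl (fun n : ℕ => (n : ℝ)) atTop).mul h2).trans ?_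
      refine Asymptotics.IsBigO.of_bound 1 ?_
      filter_upwards [eventually_ge_atTop 1] with n hn
      have hn0 : (0 : ℝ) < n := by exact_mod_cast hn
      rw [Real.norm_of_nonneg (by positivity), Real.norm_of_nonneg (by positivity), one_mul]
      refine le_of_eq ?_
      conv_lhs => rw [show (n : ℝ) = (n : ℝ) ^ (1 : ℝ) by rw [Real.rpow_one]]
      rw [Real.rpow_one, ← Real.rpow_one_add' hn0.le]
      · congr 1
        push_cast
        ring
      · push_cast
        intro h0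
        linarith
    exact h4.trans_tendsto ((tendsto_rpow_neg_atTop (show 0 < D / 2 - 1 / 3 by linarith)).comp
      (tendsto_natCast_atTop_atTop (R := ℝ)))
  have h5 : Tendsto (fun n : ℕ => g * ((n : ℝ) * Real.log (1 + 2 / (n : ℝ)))) atTop (𝓝 (g * 2)) :=
    ((Real.tendsto_mul_log_one_add_div_atTop 2).comp
      (tendsto_natCast_atTop_atTop (R := ℝ))).const_mul g
  have h6 : Tendsto (fun n : ℕ => (n : ℝ) * (Real.log (u (n + 2)) - Real.log (u n))) atTop
      (𝓝 (2 * g)) := by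
    have h7 := h5.sub h3
    rw [sub_zero, mul_comm g 2] at h7
    refine h7.congr' ?_
    filter_upwards [eventually_ge_atTop 1] with n hn
    have hn0 : (0 : ℝ) < n := by exact_mod_cast hn
    have e1 : Real.log (1 + 2 / (n : ℝ)) = Real.log ((n + 2 : ℕ) : ℝ) - Real.log n := by
      rw [← Real.log_div (by positivity) (by positivity)]
      congr 1
      push_cast
      field_simp
    rw [e1]
    simp only [dd, sum_range_succ, sum_range_zero]
    norm_num
    ring
  have h8 : Tendsto (fun n : ℕ => Real.log (u (n + 2)) - Real.log (u n)) atTop (𝓝 0) := by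
    have h9 : Tendsto (fun n : ℕ => ((n : ℝ))⁻¹) atTop (𝓝 0) :=
      tendsto_inv_atTop_zero.comp (tendsto_natCast_atTop_atTop (R := ℝ))
    have h10 := h9.mul h6
    rw [zero_mul] at h10
    refine h10.congr' ?_
    filter_upwards [eventually_ge_atTop 1] with n hn
    have hn0 : (n : ℝ) ≠ 0 := by
      have : (0 : ℝ) < n := by exact_mod_cast hn
      exact this.ne'
    rw [← mul_assoc, inv_mul_cancel₀ hn0, one_mul]
  have h11 : Tendsto (fun n : ℕ => (n : ℝ) * (Real.log (u (n + 2)) - Real.log (u n)) *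
      (Real.log (u (n + 2)) - Real.log (u n))) atTop (𝓝 0) := by
    have := h6.mul h8
    rwa [mul_zero] at this
  have h12 : Tendsto (fun n : ℕ => (n : ℝ) * (u (n + 2) / u n - 1) -
      (n : ℝ) * (Real.log (u (n + 2)) - Real.log (u n))) atTop (𝓝 0) := by
    refine squeeze_zero_norm' ?_ h11
    have h13 : ∀ᶠ n : ℕ in atTop, |Real.log (u (n + 2)) - Real.log (u n)| < 1 := by
      have := (Metric.tendsto_nhds.1 h8) 1 one_pos
      simpa [Real.dist_eq] using this
    filter_upwards [h13] with n hn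
    have e1 : u (n + 2) / u n = Real.exp (Real.log (u (n + 2)) - Real.log (u n)) := by
      rw [Real.exp_sub, Real.exp_log (hu _), Real.exp_log (hu _)]
    have h14 := Real.abs_exp_sub_one_sub_id_le hn.le
    rw [e1, ← mul_sub, Real.norm_eq_abs, abs_mul, Nat.abs_cast]
    calc (n : ℝ) * |Real.exp (Real.log (u (n + 2)) - Real.log (u n)) - 1 -
          (Real.log (u (n + 2)) - Real.log (u n))|
        ≤ (n : ℝ) * (Real.log (u (n + 2)) - Real.log (u n)) ^ 2 :=
          mul_le_mul_of_nonneg_left h14 (Nat.cast_nonneg n)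
      _ = _ := by ring
  have h15 := h12.add h6
  rw [zero_add] at h15
  refine h15.congr fun n => ?_
  ring

end Pool.Agent.J4H67.SL
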